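import Mathlib
import Pool.Agent.R405.Core

set_option autoImplicit false
set_option linter.unusedSectionVars false

/-!
The subspace theorem for vectors with an arbitrary finite index set and for a finite family of systems
of linear forms, the system being chosen at each place and for each point.
-/

namespace Pool.Agent.N63.MT

open Finset NumberField Height
open Pool.Agent.W180.OP (Pl av wt nrm wt_nonneg)
open Pool.Agent.R405 (Good sch)

variable {k K : Type} [Field k] [NumberField k] [Field K] [NumberField K] [Algebra k K]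

/-- the supremum norm -/
noncomputable def sn {F ι : Type} [Field F] (f : AbsoluteValue F ℝ) (x : ι → F) : ℝ := ⨆ j, f (x j)

theorem sn_comp {F : Type} [Field F] {ι ι' : Type} (e : ι ≃ ι') (f : AbsoluteValue F ℝ)
    (x : ι' → F) : sn f (fun a => x (e a)) = sn f x :=
  e.iSup_comp (g := fun j => f (x j))

theorem le_sn {F ι : Type} [Field F] [Finite ι] (f : AbsoluteValue F ℝ) (x : ι → F) (j : ι) :
    f (x j) ≤ sn f x :=
  le_ciSup (f := fun j => f (x j)) (Set.finite_range _).bddAbove j

theorem sn_pos {F ι : Type} [Field F] [Finite ι] (f : AbsoluteValue F ℝ) {x : ι → F}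
    (hx : x ≠ 0) : 0 < sn f x := by
  obtain ⟨j, hj⟩ := Function.ne_iff.1 hx
  exact (f.pos_iff.2 hj).trans_le (le_sn f x j)

theorem exists_sn {F ι : Type} [Field F] [Finite ι] [Nonempty ι] (f : AbsoluteValue F ℝ)
    (x : ι → F) : ∃ j, f (x j) = sn f x := by
  obtain ⟨j, hj⟩ := exists_eq_ciSup_of_finite (f := fun j => f (x j))
  exact ⟨j, hj⟩

/-- one system of linear forms at each place -/
theorem sub_one [IsGalois ℚ K] (hi : ∃ z : K, z ^ 2 = -1) {ι : Type} [Fintype ι] [Nonempty ι]
    [DecidableEq ι] (S : Finset (Pl k)) (f : Pl k → AbsoluteValue K ℝ) (hf : ∀ v ∈ S, Good v (f v))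
    (B : Pl k → ι → ι → K) (hdet : ∀ v ∈ S, (Matrix.of (B v)).det ≠ 0) (ε : ℝ) (hε : 0 < ε) :
    ∃ (Z : Finset (ι → K)) (C : ℝ), (∀ d ∈ Z, d ≠ 0) ∧ ∀ x : ι → k,
      (∀ d ∈ Z, ∑ j, d j * algebraMap k K (x j) ≠ 0) →
      ∑ v ∈ S, wt v * ∑ a, (Real.log (sn (av v) x) -
        Real.log (f v (∑ j, B v a j * algebraMap k K (x j)))) ≤
        (Fintype.card ι + ε) * logHeight x + C := by
  classical
  let e : Fin (Fintype.card ι) ≃ ι := (Fintype.equivFin ι).symm
  obtain ⟨Z, C, hZ, hC⟩ := sch hi (Fintype.card_pos (α := ι)) S f hf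
    (fun v a b => B v (e a) (e b)) (fun v hv => by
      have h1 : (Matrix.of fun a b => B v (e a) (e b)) = (Matrix.of (B v)).submatrix e e := rfl
      rw [h1, Matrix.det_submatrix_equiv_self]
      exact hdet v hv) ε hε
  refine ⟨Z.image fun d j => d (e.symm j), C, ?_, ?_⟩
  · intro d hd
    obtain ⟨d', hd', rfl⟩ := Finset.mem_image.1 hd
    intro h
    apply hZ d' hd'
    funext a
    have := congrFun h (e a)
    simpa using this
  · intro x hx
    have h1 := hC (fun a => x (e a)) (by
      intro d hd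
      have h2 := hx _ (Finset.mem_image_of_mem _ hd)
      rw [← e.sum_comp] at h2
      simpa using h2)
    have h3 : logHeight (fun a => x (e a)) = logHeight x := logHeight_comp_equiv e x
    rw [h3] at h1
    refine le_trans (le_of_eq ?_) h1
    refine Finset.sum_congr rfl fun v _ => ?_
    congr 1
    rw [← e.sum_comp]
    refine Finset.sum_congr rfl fun a _ => ?_
    congr 1
    · congr 1
      exact (sn_comp e (av v) x).symm
    · rw [← e.sum_comp]

/-- the system of linear forms depends on the place and on the point -/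
theorem sub_choice [IsGalois ℚ K] (hi : ∃ z : K, z ^ 2 = -1) {ι β : Type} [Fintype ι] [Nonempty ι]
    [DecidableEq ι] [Finite β] (S : Finset (Pl k)) (f : Pl k → AbsoluteValue K ℝ)
    (hf : ∀ v ∈ S, Good v (f v)) (B : β → ι → ι → K) (hdet : ∀ b, (Matrix.of (B b)).det ≠ 0)
    (ε : ℝ) (hε : 0 < ε) :
    ∃ (Z : Finset (ι → K)) (C : ℝ), 0 ≤ C ∧ (∀ d ∈ Z, d ≠ 0) ∧ ∀ (x : ι → k) (b : Pl k → β),
      (∀ d ∈ Z, ∑ j, d j * algebraMap k K (x j) ≠ 0) →
      ∑ v ∈ S, wt v * ∑ a, (Real.log (sn (av v) x) -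
        Real.log (f v (∑ j, B (b v) a j * algebraMap k K (x j)))) ≤
        (Fintype.card ι + ε) * logHeight x + C := by
  classical
  have : Fintype β := Fintype.ofFinite β
  have hone : ∀ c : S → β, ∃ (Z : Finset (ι → K)) (C : ℝ), (∀ d ∈ Z, d ≠ 0) ∧ ∀ x : ι → k,
      (∀ d ∈ Z, ∑ j, d j * algebraMap k K (x j) ≠ 0) →
      ∑ v ∈ S, wt v * ∑ a, (Real.log (sn (av v) x) -
        Real.log (f v (∑ j, (if h : v ∈ S then B (c ⟨v, h⟩) else 0) a j *
          algebraMap k K (x j)))) ≤ (Fintype.card ι + ε) * logHeight x + C := by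
    intro c
    refine sub_one hi S f hf (fun v => if h : v ∈ S then B (c ⟨v, h⟩) else 0) (fun v hv => ?_) ε hε
    simp only [hv, dif_pos]
    exact hdet _
  choose Z C hZ hC using hone
  refine ⟨Finset.univ.biUnion Z, ∑ c, |C c|, Finset.sum_nonneg fun _ _ => abs_nonneg _, ?_, ?_⟩
  · intro d hd
    obtain ⟨c, -, hd⟩ := Finset.mem_biUnion.1 hd
    exact hZ c d hd
  · intro x b hx
    have h1 := hC (fun v => b v.1) x fun d hd =>
      hx d (Finset.mem_biUnion.2 ⟨_, Finset.mem_univ _, hd⟩)
    have h2 : C (fun v => b v.1) ≤ ∑ c, |C c| :=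
      (le_abs_self _).trans (Finset.single_le_sum (f := fun c => |C c|)
        (fun _ _ => abs_nonneg _) (Finset.mem_univ _))
    refine le_trans (le_of_eq ?_) (h1.trans (by linarith))
    refine Finset.sum_congr rfl fun v hv => ?_
    simp only [hv, dif_pos]

end Pool.Agent.N63.MT
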