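import Mathlib
import Pool.Agent.N63.MT.Sub

set_option autoImplicit false
set_option linter.unusedSectionVars false

/-!
Monomials with exponents in a box: absolute values, heights, sums of exponents.
-/

namespace Pool.Agent.N63.MT

open Finset NumberField Height
open Pool.Agent.W180.OP (Pl av wt nrm wt_nonneg fv partial_le)

/-- the value of the monomial with the exponents `I` -/
noncomputable def mn {F : Type} [CommMonoid F] {r : ℕ} (u : Fin r → F) (I : Fin r →₀ ℕ) : F :=
  ∏ i, u i ^ I i

/-- the exponents of a box -/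
noncomputable def fs {r L : ℕ} (I : Fin r → Fin L) : Fin r →₀ ℕ :=
  Finsupp.equivFunOnFinite.symm fun i => (I i : ℕ)

@[simp] theorem fs_apply {r L : ℕ} (I : Fin r → Fin L) (i : Fin r) : fs I i = (I i : ℕ) := rfl

theorem fs_inj {r L : ℕ} : Function.Injective (fs (r := r) (L := L)) := by
  intro I J h
  funext i
  have := DFunLike.congr_fun h i
  simpa [Fin.ext_iff] using this

/-- `log max(1, a)` -/
noncomputable def lp (a : ℝ) : ℝ := Real.log (max 1 a)

theorem lp_nonneg (a : ℝ) : 0 ≤ lp a := Real.log_nonneg (le_max_left _ _)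

theorem lp_sub {a : ℝ} (ha : 0 < a) : lp a - lp a⁻¹ = Real.log a := by
  unfold lp
  rcases le_total a 1 with h | h
  · rw [max_eq_left h, max_eq_right ((one_le_inv₀ ha).2 h), Real.log_one, Real.log_inv]
    ring
  · rw [max_eq_right h, max_eq_left (inv_le_one_of_one_le₀ h), Real.log_one]
    ring

theorem lp_add {a : ℝ} (ha : 0 < a) : lp a + lp a⁻¹ = |Real.log a| := by
  unfold lp
  rcases le_total a 1 with h | h
  · rw [max_eq_left h, max_eq_right ((one_le_inv₀ ha).2 h), Real.log_one, Real.log_inv,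
      abs_of_nonpos (Real.log_nonpos ha.le h)]
    ring
  · rw [max_eq_right h, max_eq_left (inv_le_one_of_one_le₀ h), Real.log_one,
      abs_of_nonneg (Real.log_nonneg h)]
    ring

theorem iSup_pow {a : ℝ} (ha : 0 ≤ a) (m : ℕ) : ⨆ j : Fin (m + 1), a ^ (j : ℕ) = max 1 a ^ m := by
  apply le_antisymm
  · refine ciSup_le fun j => ?_
    calc a ^ (j : ℕ) ≤ max 1 a ^ (j : ℕ) := pow_le_pow_left₀ ha (le_max_right _ _) _
      _ ≤ max 1 a ^ m := pow_le_pow_right₀ (le_max_left _ _) (Nat.lt_succ_iff.1 j.2)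
  · have hb : BddAbove (Set.range fun j : Fin (m + 1) => a ^ (j : ℕ)) :=
      (Set.finite_range _).bddAbove
    rcases le_total a 1 with h | h
    · rw [max_eq_left h, one_pow]
      have := le_ciSup hb (0 : Fin (m + 1))
      simpa using this
    · rw [max_eq_right h]
      have := le_ciSup hb (Fin.last m)
      simpa using this

theorem height_congr {k : Type} [Field k] [NumberField k] {ι ι' : Type} {x : ι → k} {y : ι' → k}
    (hx : x ≠ 0) (hy : y ≠ 0) (h : ∀ f : AbsoluteValue k ℝ, ⨆ i, f (x i) = ⨆ i, f (y i)) :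
    logHeight x = logHeight y := by
  rw [logHeight_eq_log_mulHeight, logHeight_eq_log_mulHeight, Height.mulHeight_eq hx,
    Height.mulHeight_eq hy]
  simp only [h]

theorem height_pow {k : Type} [Field k] [NumberField k] (u : k) (m : ℕ) :
    logHeight (fun j : Fin (m + 1) => u ^ (j : ℕ)) = m * logHeight₁ u := by
  rw [logHeight₁_eq_logHeight, ← logHeight_pow]
  refine height_congr ?_ ?_ fun f => ?_
  · intro h
    have := congrFun h 0
    simp at this
  · intro h
    have := congrFun h 1
    simp at this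
  · have e1 : (fun j : Fin (m + 1) => f (u ^ (j : ℕ))) = fun j : Fin (m + 1) => f u ^ (j : ℕ) := by
      funext j
      rw [map_pow]
    have e2 : (⨆ j : Fin (m + 1), f (u ^ (j : ℕ))) = max 1 (f u) ^ m := by
      rw [← iSup_pow (f.nonneg u) m, ← e1]
    rw [e2]
    apply le_antisymm
    · have hb : BddAbove (Set.range fun i : Fin 2 => f ((![u, 1] ^ m) i)) :=
        (Set.finite_range _).bddAbove
      rcases le_total (f u) 1 with h | h
      · rw [max_eq_left h, one_pow]
        have := le_ciSup hb 1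
        simpa using this
      · rw [max_eq_right h]
        have := le_ciSup hb 0
        simpa using this
    · refine ciSup_le fun i => ?_
      fin_cases i
      · simp only [Fin.zero_eta, Pi.pow_apply, Matrix.cons_val_zero, map_pow]
        exact pow_le_pow_left₀ (f.nonneg u) (le_max_right _ _) _
      · have h1 : f ((![u, 1] ^ m) (1 : Fin 2)) = 1 := by simp
        show f ((![u, 1] ^ m) (1 : Fin 2)) ≤ _
        rw [h1]
        exact one_le_pow₀ (le_max_left (1 : ℝ) (f u))

section

variable {k : Type} [Field k] {r : ℕ}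

theorem mn_ne {u : Fin r → k} (hu : ∀ i, u i ≠ 0) (I : Fin r →₀ ℕ) : mn u I ≠ 0 :=
  Finset.prod_ne_zero_iff.2 fun i _ => pow_ne_zero _ (hu i)

theorem mn_add (u : Fin r → k) (I J : Fin r →₀ ℕ) : mn u (I + J) = mn u I * mn u J := by
  unfold mn
  rw [← Finset.prod_mul_distrib]
  exact Finset.prod_congr rfl fun i _ => by rw [Finsupp.add_apply, pow_add]

theorem mn_zero (u : Fin r → k) : mn u 0 = 1 := by simp [mn]

theorem mn_map {K : Type} [Field K] (φ : k →+* K) (u : Fin r → k) (I : Fin r →₀ ℕ) :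
    mn (fun i => φ (u i)) I = φ (mn u I) := by
  unfold mn
  rw [map_prod]
  exact Finset.prod_congr rfl fun i _ => (map_pow _ _ _).symm

theorem mn_mul (u w : Fin r → k) (I : Fin r →₀ ℕ) :
    mn (fun i => u i * w i) I = mn u I * mn w I := by
  unfold mn
  rw [← Finset.prod_mul_distrib]
  exact Finset.prod_congr rfl fun i _ => mul_pow _ _ _

/-- the logarithm of the absolute value of a monomial -/
theorem log_mn (f : AbsoluteValue k ℝ) {u : Fin r → k} (hu : ∀ i, u i ≠ 0) (I : Fin r →₀ ℕ) :
    Real.log (f (mn u I)) = ∑ i, (I i : ℝ) * Real.log (f (u i)) := by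
  unfold mn
  rw [map_prod, Real.log_prod fun i _ => (f.pos_iff.2 (pow_ne_zero _ (hu i))).ne']
  exact Finset.sum_congr rfl fun i _ => by rw [map_pow, Real.log_pow]

/-- the norm of the vector of the monomials of a box -/
theorem sn_box (f : AbsoluteValue k ℝ) (u : Fin r → k) (m : ℕ) :
    sn f (fun I : Fin r → Fin (m + 1) => mn u (fs I)) = ∏ i, max 1 (f (u i)) ^ m := by
  unfold sn mn
  simp only [map_prod, map_pow, fs_apply]
  have h := Real.iSup_prod_eq_prod_iSup_of_nonneg (ι := fun _ : Fin r => Fin (m + 1))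
    (f := fun (i : Fin r) (j : Fin (m + 1)) => f (u i) ^ (j : ℕ))
    (fun i j => pow_nonneg (f.nonneg _) _)
  rw [h]
  exact Finset.prod_congr rfl fun i _ => iSup_pow (f.nonneg _) m

theorem log_sn_box (f : AbsoluteValue k ℝ) (u : Fin r → k) (m : ℕ) :
    Real.log (sn f (fun I : Fin r → Fin (m + 1) => mn u (fs I))) = m * ∑ i, lp (f (u i)) := by
  rw [sn_box, Real.log_prod fun i _ => (pow_pos (lt_of_lt_of_le one_pos (le_max_left _ _)) _).ne',
    Finset.mul_sum]
  exact Finset.sum_congr rfl fun i _ => by rw [Real.log_pow]; rfl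

/-- the sum of an exponent over a box -/
theorem sum_box (m : ℕ) (i : Fin r) :
    ∑ I : Fin r → Fin (m + 1), ((fs I i : ℕ) : ℝ) = ((m + 1 : ℕ) : ℝ) ^ r * (m / 2) := by
  have h1 : ∑ I : Fin r → Fin (m + 1), ((fs I i : ℕ) : ℝ) =
      ∑ I : Fin r → Fin (m + 1), ((m : ℝ) - ((fs I i : ℕ) : ℝ)) := by
    rw [← (Equiv.piCongrRight fun _ : Fin r => (Fin.revPerm : Equiv.Perm (Fin (m + 1)))).sum_comp]
    refine Finset.sum_congr rfl fun I _ => ?_
    simp only [fs_apply, Equiv.piCongrRight_apply, Pi.map_apply, Fin.revPerm_apply, Fin.val_rev]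
    have := (I i).2
    rw [Nat.cast_sub (by omega)]
    push_cast
    ring
  rw [Finset.sum_sub_distrib] at h1
  have h2 : ∑ _I : Fin r → Fin (m + 1), (m : ℝ) = ((m + 1 : ℕ) : ℝ) ^ r * m := by
    rw [Finset.sum_const, nsmul_eq_mul, Finset.card_univ, Fintype.card_fun, Fintype.card_fin,
      Fintype.card_fin]
    push_cast
    ring
  rw [h2] at h1
  linarith

/-- the sum of the logarithms of the monomials of a box -/
theorem sum_log_box (f : AbsoluteValue k ℝ) {u : Fin r → k} (hu : ∀ i, u i ≠ 0) (m : ℕ) :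
    ∑ I : Fin r → Fin (m + 1), Real.log (f (mn u (fs I))) =
      ((m + 1 : ℕ) : ℝ) ^ r * (m / 2) * ∑ i, Real.log (f (u i)) := by
  simp only [log_mn f hu]
  rw [Finset.sum_comm, Finset.mul_sum]
  refine Finset.sum_congr rfl fun i _ => ?_
  rw [← Finset.sum_mul, sum_box]

end

section

variable {k : Type} [Field k] [NumberField k] {r : ℕ}

theorem box_ne (u : Fin r → k) (m : ℕ) :
    (fun I : Fin r → Fin (m + 1) => mn u (fs I)) ≠ 0 := by
  intro h
  have := congrFun h 0
  simp [mn] at this

theorem height_box (u : Fin r → k) (m : ℕ) :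
    logHeight (fun I : Fin r → Fin (m + 1) => mn u (fs I)) = m * ∑ i, logHeight₁ (u i) := by
  have h := logHeight_fun_prod_eq (ι := fun _ : Fin r => Fin (m + 1))
    (x := fun (i : Fin r) (j : Fin (m + 1)) => u i ^ (j : ℕ)) (by
      intro i h
      have := congrFun h 0
      simp at this)
  rw [Finset.mul_sum]
  refine Eq.trans ?_ (h.trans (Finset.sum_congr rfl fun i _ => height_pow (u i) m))
  rfl

/-- the vector of the products of the monomials of a box with the coordinates of a point -/
noncomputable def big {F : Type} [Field F] {r n : ℕ} (m : ℕ) (u : Fin r → F) (t : Fin n → F) :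
    (Fin r → Fin (m + 1)) × Fin n → F := fun q => mn u (fs q.1) * t q.2

theorem height_big {n : ℕ} (m : ℕ) (u : Fin r → k) {t : Fin n → k} (ht : t ≠ 0) :
    logHeight (big m u t) = m * ∑ i, logHeight₁ (u i) + logHeight t := by
  rw [← height_box]
  exact logHeight_fun_mul_eq (box_ne u m) ht

theorem log_sn_big {n : ℕ} (f : AbsoluteValue k ℝ) (m : ℕ) (u : Fin r → k) {t : Fin n → k}
    (ht : t ≠ 0) :
    Real.log (sn f (big m u t)) = m * ∑ i, lp (f (u i)) + Real.log (sn f t) := by
  have h : sn f (big m u t) = sn f (fun I : Fin r → Fin (m + 1) => mn u (fs I)) * sn f t :=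
    Real.iSup_fun_mul_eq_iSup_mul_iSup_of_nonneg f (fun I : Fin r → Fin (m + 1) => mn u (fs I)) t
  rw [h, Real.log_mul (sn_pos f (box_ne u m)).ne' (sn_pos f ht).ne', log_sn_box]

/-- partial sums of the local terms of the height of a number -/
theorem sum_lp_le (S : Finset (Pl k)) (x : k) : ∑ v ∈ S, wt v * lp (av v x) ≤ logHeight₁ x := by
  classical
  have h := partial_le (![x, 1] : Fin 2 → k) 1 (by simp) S.toLeft S.toRight
  rw [← logHeight₁_eq_logHeight] at h
  refine le_trans (le_of_eq ?_) h
  have e : ∀ f : AbsoluteValue k ℝ, nrm f (![x, 1] : Fin 2 → k) = max 1 (f x) := by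
    intro f
    have hb : BddAbove (Set.range fun i : Fin 2 => f ((![x, 1] : Fin 2 → k) i)) :=
      (Set.finite_range _).bddAbove
    show (⨆ i : Fin 2, f ((![x, 1] : Fin 2 → k) i)) = _
    apply le_antisymm
    · refine ciSup_le fun i => ?_
      fin_cases i <;> simp
    · refine max_le ?_ ?_
      · have := le_ciSup hb 1
        simpa using this
      · have := le_ciSup hb 0
        simpa using this
  simp only [e]
  rw [← Finset.toLeft_disjSum_toRight (u := S), Finset.sum_disjSum]
  simp only [Finset.toLeft_disjSum, Finset.toRight_disjSum]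
  congr 1
  exact Finset.sum_congr rfl fun v _ => one_mul _

/-- twice the height minus the sum of the terms `|log |x|_v|` for the places of `S`: the contribution
of the places outside `S` -/
noncomputable def ex (S : Finset (Pl k)) (x : k) : ℝ :=
  2 * logHeight₁ x - ∑ v ∈ S, wt v * |Real.log (av v x)|

theorem ex_facts (S : Finset (Pl k)) {x : k} (hx : x ≠ 0) :
    logHeight₁ x - ∑ v ∈ S, wt v * lp (av v x) ≤ ex S x ∧
    0 ≤ logHeight₁ x - ∑ v ∈ S, wt v * lp (av v x) ∧ 0 ≤ ex S x ∧
    2 * (logHeight₁ x - ∑ v ∈ S, wt v * lp (av v x)) + ∑ v ∈ S, wt v * Real.log (av v x) =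
      ex S x := by
  have h1 := sum_lp_le S x
  have h2 := sum_lp_le S x⁻¹
  rw [logHeight₁_inv] at h2
  have h3 : ∑ v ∈ S, wt v * |Real.log (av v x)| =
      ∑ v ∈ S, wt v * lp (av v x) + ∑ v ∈ S, wt v * lp (av v x⁻¹) := by
    rw [← Finset.sum_add_distrib]
    refine Finset.sum_congr rfl fun v _ => ?_
    rw [map_inv₀, ← lp_add ((av v).pos_iff.2 hx)]
    ring
  have h4 : ∑ v ∈ S, wt v * Real.log (av v x) =
      ∑ v ∈ S, wt v * lp (av v x) - ∑ v ∈ S, wt v * lp (av v x⁻¹) := by
    rw [← Finset.sum_sub_distrib]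
    refine Finset.sum_congr rfl fun v _ => ?_
    rw [map_inv₀, ← lp_sub ((av v).pos_iff.2 hx)]
    ring
  unfold ex
  rw [h3, h4]
  refine ⟨by linarith, by linarith, by linarith, by ring⟩

end

end Pool.Agent.N63.MT
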