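import Mathlib
import Pool.Agent.N63.MT.Box

set_option autoImplicit false
set_option linter.unusedSectionVars false

/-!
The selection of coordinates: the rows `u^J a_j(u)` are completed by coordinates `u^I t_i` such that
the product of the absolute values of the remaining coordinates is at least the product of the
absolute values of the determinant of the `a_j`.
-/

namespace Pool.Agent.N63.MT

open Finset MvPolynomial Matrix

/-- expansion of the determinant of a product -/
theorem det_expand {F R Q : Type} [CommRing F] [Fintype R] [DecidableEq R] [Fintype Q]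
    [DecidableEq Q]
    (M : Matrix R Q F) (X : Matrix Q R F) :
    (M * X).det = ∑ g : R → Q, (∏ ρ, X (g ρ) ρ) * (M.submatrix id g).det := by
  classical
  rw [← Matrix.det_transpose]
  have h1 : (M * X)ᵀ = fun ρ => ∑ q : Q, X q ρ • (fun ρ' => M ρ' q) := by
    funext ρ ρ'
    rw [Matrix.transpose_apply, Matrix.mul_apply, Finset.sum_apply]
    refine Finset.sum_congr rfl fun q _ => ?_
    rw [Pi.smul_apply, smul_eq_mul, mul_comm]
  have h2 : ((M * X)ᵀ).det = (Matrix.detRowAlternating (R := F) (n := R)).toMultilinearMap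
      (fun ρ => ∑ q : Q, X q ρ • (fun ρ' => M ρ' q)) := by
    rw [h1]; rfl
  rw [h2, MultilinearMap.map_sum]
  refine Finset.sum_congr rfl fun g _ => ?_
  rw [MultilinearMap.map_smul_univ, smul_eq_mul]
  congr 1
  rw [← Matrix.det_transpose]
  rfl

section

variable {F : Type} [Field F] {r : ℕ}

/-- the value of a polynomial as a sum over a box -/
theorem eval_box (P : MvPolynomial (Fin r) F) (m : ℕ) (hP : ∀ s, P.degreeOf s ≤ m)
    (u : Fin r → F) :
    eval u P = ∑ I : Fin r → Fin (m + 1), coeff (fs I) P * mn u (fs I) := by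
  classical
  rw [MvPolynomial.eval_eq']
  have h1 : ∀ e ∈ P.support, ∃ I : Fin r → Fin (m + 1), fs I = e := by
    intro e he
    refine ⟨fun i => ⟨e i, ?_⟩, ?_⟩
    · exact Nat.lt_succ_of_le ((MvPolynomial.monomial_le_degreeOf i he).trans (hP i))
    · ext i
      rfl
  have h2 : ∑ I : Fin r → Fin (m + 1), coeff (fs I) P * mn u (fs I) =
      ∑ e ∈ Finset.univ.image (fs (r := r) (L := m + 1)), coeff e P * mn u e := by
    rw [Finset.sum_image fun I _ J _ h => fs_inj h]
  rw [h2]
  have h3 : P.support ⊆ Finset.univ.image (fs (r := r) (L := m + 1)) := by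
    intro e he
    obtain ⟨I, hI⟩ := h1 e he
    exact Finset.mem_image.2 ⟨I, Finset.mem_univ _, hI⟩
  rw [← Finset.sum_subset h3]
  · rfl
  · intro e _ he
    rw [MvPolynomial.notMem_support_iff.1 he, zero_mul]

variable {n : ℕ}

/-- the rows: the coefficients of `u^J a_j(u)` -/
noncomputable def rowM (l d : ℕ) (a : Fin n → Fin n → MvPolynomial (Fin r) F) :
    Matrix (Fin n × (Fin r → Fin (l + 1))) ((Fin r → Fin (l + d + 1)) × Fin n) F :=
  fun ρ q => coeff (fs q.1) (monomial (fs ρ.2) 1 * a ρ.1 q.2)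

theorem row_eval (l d : ℕ) (a : Fin n → Fin n → MvPolynomial (Fin r) F)
    (ha : ∀ j i s, (a j i).degreeOf s ≤ d) (u : Fin r → F) (t : Fin n → F)
    (ρ : Fin n × (Fin r → Fin (l + 1))) :
    ∑ q, rowM l d a ρ q * big (l + d) u t q =
      mn u (fs ρ.2) * ∑ i, eval u (a ρ.1 i) * t i := by
  rw [Fintype.sum_prod_type_right, Finset.mul_sum]
  refine Finset.sum_congr rfl fun i _ => ?_
  have h1 : ∀ s, (monomial (fs ρ.2) 1 * a ρ.1 i).degreeOf s ≤ l + d := by
    intro s
    refine (MvPolynomial.degreeOf_mul_le _ _ _).trans (add_le_add ?_ (ha _ _ _))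
    rw [MvPolynomial.degreeOf_monomial_eq _ _ one_ne_zero, fs_apply]
    exact Nat.lt_succ_iff.1 (ρ.2 s).2
  have h2 := eval_box _ (l + d) h1 u
  have h3 : eval u (monomial (fs ρ.2) 1 * a ρ.1 i) = mn u (fs ρ.2) * eval u (a ρ.1 i) := by
    rw [map_mul, MvPolynomial.eval_monomial, one_mul]
    congr 1
    unfold mn
    exact Finsupp.prod_fintype _ _ fun _ => pow_zero _
  rw [← mul_assoc, ← h3, h2, Finset.sum_mul]
  refine Finset.sum_congr rfl fun I _ => ?_
  simp only [rowM, big]
  ring

/-- the points of the grid -/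
def zt (F : Type) [Field F] {r l : ℕ} (z : Fin r → Fin (l + 1)) : Fin r → F :=
  fun i => ((z i : ℕ) : F) + 1

/-- the product of a point of the grid and of `u` -/
def zp {l : ℕ} (u : Fin r → F) (z : Fin r → Fin (l + 1)) : Fin r → F := fun i => zt F z i * u i

theorem zt_ne [CharZero F] {l : ℕ} (z : Fin r → Fin (l + 1)) (i : Fin r) : zt F z i ≠ 0 := by
  unfold zt
  exact_mod_cast Nat.succ_ne_zero (z i : ℕ)

/-- the matrix of the values of the monomials at the points of the grid -/
noncomputable def vdm (F : Type) [Field F] (r l : ℕ) :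
    Matrix (Fin r → Fin (l + 1)) (Fin r → Fin (l + 1)) F :=
  fun J z => mn (zt F z) (fs J)

theorem vdm_det [CharZero F] (l : ℕ) : (vdm F r l).det ≠ 0 := by
  classical
  intro h
  obtain ⟨c, hc, hc0⟩ := Matrix.exists_vecMul_eq_zero_iff.2 h
  apply hc
  set P : MvPolynomial (Fin r) F := ∑ J : Fin r → Fin (l + 1), monomial (fs J) (c J) with hP
  have hcoef : ∀ J : Fin r → Fin (l + 1), coeff (fs J) P = c J := by
    intro J
    rw [hP, MvPolynomial.coeff_sum, Finset.sum_eq_single J]
    · rw [MvPolynomial.coeff_monomial, if_pos rfl]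
    · intro J' _ hJ'
      rw [MvPolynomial.coeff_monomial, if_neg]
      exact fun h => hJ' (fs_inj h)
    · intro h
      exact absurd (Finset.mem_univ _) h
  have hdeg : ∀ i, P.degreeOf i < (Finset.univ.image fun j : Fin (l + 1) => ((j : ℕ) : F) + 1).card := by
    intro i
    rw [Finset.card_image_of_injective _ (by
      intro a b hab
      have hab' : ((a : ℕ) : F) + 1 = ((b : ℕ) : F) + 1 := hab
      have : ((a : ℕ) : F) = ((b : ℕ) : F) := by linear_combination hab'
      exact Fin.ext (by exact_mod_cast this)), Finset.card_univ, Fintype.card_fin]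
    refine Nat.lt_succ_of_le ?_
    rw [hP]
    refine (MvPolynomial.degreeOf_sum_le _ _ _).trans (Finset.sup_le fun J _ => ?_)
    by_cases h0 : c J = 0
    · rw [h0, monomial_zero, degreeOf_zero]
      exact Nat.zero_le _
    · rw [MvPolynomial.degreeOf_monomial_eq _ _ h0, fs_apply]
      exact Nat.lt_succ_iff.1 (J i).2
  have hev : ∀ x : Fin r → F, (∀ i, x i ∈ Finset.univ.image fun j : Fin (l + 1) =>
      ((j : ℕ) : F) + 1) → eval x P = 0 := by
    intro x hx
    simp only [Finset.mem_image, Finset.mem_univ, true_and] at hx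
    choose z hz using hx
    have hxz : x = zt F z := by
      funext i
      exact (hz i).symm
    rw [hxz, hP, map_sum]
    have := congrFun hc0 z
    rw [Pi.zero_apply] at this
    rw [← this]
    simp only [Matrix.vecMul, dotProduct, vdm]
    refine Finset.sum_congr rfl fun J _ => ?_
    rw [MvPolynomial.eval_monomial]
    congr 1
    unfold mn
    exact Finsupp.prod_fintype _ _ fun _ => pow_zero _
  have hP0 := MvPolynomial.eq_zero_of_eval_zero_at_prod_finset P _ hdeg hev
  funext J
  rw [← hcoef J, hP0, coeff_zero, Pi.zero_apply]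

/-- the second factor -/
noncomputable def colX (l d : ℕ) (u : Fin r → F) :
    Matrix ((Fin r → Fin (l + d + 1)) × Fin n) (Fin n × (Fin r → Fin (l + 1))) F :=
  fun q σ => big (l + d) (zp u σ.2) (Pi.single σ.1 1) q

/-- the product of the two factors -/
noncomputable def prodM (l d : ℕ) (a : Fin n → Fin n → MvPolynomial (Fin r) F) (u : Fin r → F) :
    Matrix (Fin n × (Fin r → Fin (l + 1))) (Fin n × (Fin r → Fin (l + 1))) F :=
  @HMul.hMul _ _ _ Matrix.instHMulOfFintypeOfMulOfAddCommMonoid (rowM l d a) (colX l d u)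

theorem prod_eq (l d : ℕ) (a : Fin n → Fin n → MvPolynomial (Fin r) F)
    (ha : ∀ j i s, (a j i).degreeOf s ≤ d) (u : Fin r → F) :
    prodM l d a u =
      (Matrix.kroneckerMap (· * ·) (1 : Matrix (Fin n) (Fin n) F)
        (Matrix.of fun (J z : Fin r → Fin (l + 1)) => mn (zp u z) (fs J)) :
        Matrix (Fin n × (Fin r → Fin (l + 1))) (Fin n × (Fin r → Fin (l + 1))) F) *
      (Matrix.blockDiagonal (fun z : Fin r → Fin (l + 1) =>
        (Matrix.of fun j i => eval (zp u z) (a j i) : Matrix (Fin n) (Fin n) F)) :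
        Matrix (Fin n × (Fin r → Fin (l + 1))) (Fin n × (Fin r → Fin (l + 1))) F) := by
  classical
  ext ⟨j, J⟩ ⟨i, z⟩
  unfold prodM
  rw [Matrix.mul_apply]
  have h1 := row_eval l d a ha (zp u z) (Pi.single i 1) (j, J)
  simp only [colX]
  rw [h1, Matrix.mul_apply, Fintype.sum_prod_type]
  have h2 : ∑ i', eval (zp u z) (a j i') * (Pi.single i 1 : Fin n → F) i' =
      eval (zp u z) (a j i) := by
    rw [Finset.sum_eq_single i]
    · rw [Pi.single_eq_same, mul_one]
    · intro i' _ hi'
      rw [Pi.single_eq_of_ne hi', mul_zero]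
    · intro h
      exact absurd (Finset.mem_univ _) h
  rw [h2, Finset.sum_eq_single j, Finset.sum_eq_single z]
  · rw [Matrix.blockDiagonal_apply_eq]
    simp
  · intro z' _ hz'
    rw [Matrix.blockDiagonal_apply_ne _ _ _ hz', mul_zero]
  · intro h
    exact absurd (Finset.mem_univ _) h
  · intro j' _ hj'
    refine Finset.sum_eq_zero fun z' _ => ?_
    rw [Matrix.kroneckerMap_apply, Matrix.one_apply_ne (Ne.symm hj')]
    ring
  · intro h
    exact absurd (Finset.mem_univ _) h

theorem det_prod (l d : ℕ) (a : Fin n → Fin n → MvPolynomial (Fin r) F)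
    (ha : ∀ j i s, (a j i).degreeOf s ≤ d) (u : Fin r → F) :
    (prodM l d a u).det =
      ((∏ J : Fin r → Fin (l + 1), mn u (fs J)) * (vdm F r l).det) ^ n *
        ∏ z : Fin r → Fin (l + 1), eval (zp u z) (Matrix.of a).det := by
  classical
  rw [prod_eq l d a ha u, Matrix.det_mul, Matrix.det_kronecker, Matrix.det_blockDiagonal,
    Matrix.det_one, one_pow, one_mul, Fintype.card_fin]
  congr 1
  · congr 1
    have h1 : (Matrix.of fun (J z : Fin r → Fin (l + 1)) => mn (zp u z) (fs J)) =
        Matrix.diagonal (fun J => mn u (fs J)) * vdm F r l := by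
      ext J z
      rw [Matrix.diagonal_mul]
      show mn (fun i => zt F z i * u i) (fs J) = mn u (fs J) * mn (zt F z) (fs J)
      rw [mn_mul, mul_comm]
    rw [h1, Matrix.det_mul, Matrix.det_diagonal]
  · refine Finset.prod_congr rfl fun z _ => ?_
    rw [RingHom.map_det]
    rfl

/-- the selection of the coordinates -/
theorem select [CharZero F] (f : AbsoluteValue F ℝ) (l d : ℕ)
    (a : Fin n → Fin n → MvPolynomial (Fin r) F)
    (ha : ∀ j i s, (a j i).degreeOf s ≤ d) :
    ∃ C : ℝ, ∀ u : Fin r → F, (∀ i, u i ≠ 0) →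
      (∀ z : Fin r → Fin (l + 1), eval (zp u z) (Matrix.of a).det ≠ 0) →
      ∃ g : Fin n × (Fin r → Fin (l + 1)) → (Fin r → Fin (l + d + 1)) × Fin n,
        ((rowM l d a).submatrix id g).det ≠ 0 ∧
        n * ∑ J : Fin r → Fin (l + 1), Real.log (f (mn u (fs J))) +
          ∑ z : Fin r → Fin (l + 1), Real.log (f (eval (zp u z) (Matrix.of a).det)) ≤
          ∑ ρ, Real.log (f (mn u (fs (g ρ).1))) + C := by
  classical
  set R := Fin n × (Fin r → Fin (l + 1)) with hR
  set Q := (Fin r → Fin (l + d + 1)) × Fin n with hQ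
  set C1 : ℝ := 1 + ∑ z : Fin r → Fin (l + 1), ∑ I : Fin r → Fin (l + d + 1),
    f (mn (zt F z) (fs I)) with hC1
  have hC1pos : 1 ≤ C1 := by
    have : 0 ≤ ∑ z : Fin r → Fin (l + 1), ∑ I : Fin r → Fin (l + d + 1),
      f (mn (zt F z) (fs I)) := Finset.sum_nonneg fun _ _ => Finset.sum_nonneg fun _ _ =>
        f.nonneg _
    linarith
  set C2 : ℝ := 1 + ∑ g : R → Q, f ((rowM l d a).submatrix id g).det with hC2
  have hC2pos : 1 ≤ C2 := by
    have : 0 ≤ ∑ g : R → Q, f ((rowM l d a).submatrix id g).det :=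
      Finset.sum_nonneg fun _ _ => f.nonneg _
    linarith
  set V : ℝ := f (vdm F r l).det with hV
  have hVpos : 0 < V := f.pos_iff.2 (vdm_det l)
  refine ⟨Fintype.card R * Real.log C1 + Real.log C2 - n * Real.log V, fun u hu hD => ?_⟩
  have hdet := det_prod l d a ha u
  have hdet0 : (prodM l d a u).det ≠ 0 := by
    rw [hdet]
    refine mul_ne_zero (pow_ne_zero _ (mul_ne_zero ?_ (vdm_det l))) ?_
    · exact Finset.prod_ne_zero_iff.2 fun J _ => mn_ne hu _
    · exact Finset.prod_ne_zero_iff.2 fun z _ => hD z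
  have hexp : (prodM l d a u).det = ∑ g : R → Q, (∏ ρ, colX l d u (g ρ) ρ) *
      ((rowM l d a).submatrix id g).det := det_expand (rowM l d a) (colX (n := n) l d u)
  -- the maximal term
  set G : Finset (R → Q) := Finset.univ.filter fun g =>
    ((rowM l d a).submatrix id g).det ≠ 0 with hG
  have hGne : G.Nonempty := by
    by_contra hne
    rw [Finset.not_nonempty_iff_eq_empty] at hne
    apply hdet0
    rw [hexp]
    refine Finset.sum_eq_zero fun g _ => ?_
    have : g ∉ G := by rw [hne]; exact Finset.notMem_empty _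
    rw [hG, Finset.mem_filter, not_and, not_not] at this
    rw [this (Finset.mem_univ _), mul_zero]
  obtain ⟨g, hg, hmax⟩ := Finset.exists_max_image G
    (fun g => ∏ ρ, f (mn u (fs (g ρ).1))) hGne
  refine ⟨g, (Finset.mem_filter.1 hg).2, ?_⟩
  set P : ℝ := ∏ ρ, f (mn u (fs (g ρ).1)) with hP
  have hPpos : 0 < P := Finset.prod_pos fun ρ _ => f.pos_iff.2 (mn_ne hu _)
  -- the bound
  have hX : ∀ (q : Q) (σ : R), f (colX l d u q σ) ≤ C1 * f (mn u (fs q.1)) := by
    intro q σ
    have h1 : f (colX l d u q σ) ≤ f (mn (zp u σ.2) (fs q.1)) := by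
      show f (mn (zp u σ.2) (fs q.1) * (Pi.single σ.1 1 : Fin n → F) q.2) ≤ _
      by_cases h : q.2 = σ.1
      · rw [h, Pi.single_eq_same, mul_one]
      · rw [Pi.single_eq_of_ne h, mul_zero, map_zero]
        exact f.nonneg _
    refine h1.trans ?_
    have h2 : mn (zp u σ.2) (fs q.1) = mn (zt F σ.2) (fs q.1) * mn u (fs q.1) := mn_mul _ _ _
    rw [h2, map_mul]
    refine mul_le_mul_of_nonneg_right ?_ (f.nonneg _)
    have h3 : f (mn (zt F σ.2) (fs q.1)) ≤ ∑ I : Fin r → Fin (l + d + 1),
        f (mn (zt F σ.2) (fs I)) := Finset.single_le_sum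
          (f := fun I : Fin r → Fin (l + d + 1) => f (mn (zt F σ.2) (fs I)))
          (fun _ _ => f.nonneg _) (Finset.mem_univ q.1)
    have h4 : ∑ I : Fin r → Fin (l + d + 1), f (mn (zt F σ.2) (fs I)) ≤
        ∑ z : Fin r → Fin (l + 1), ∑ I : Fin r → Fin (l + d + 1), f (mn (zt F z) (fs I)) :=
      Finset.single_le_sum (f := fun z : Fin r → Fin (l + 1) =>
        ∑ I : Fin r → Fin (l + d + 1), f (mn (zt F z) (fs I)))
        (fun _ _ => Finset.sum_nonneg fun _ _ => f.nonneg _) (Finset.mem_univ σ.2)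
    linarith
  have hbound : f (prodM l d a u).det ≤ C1 ^ Fintype.card R * C2 * P := by
    rw [hexp]
    refine (f.sum_le _ _).trans ?_
    have h1 : ∀ g' : R → Q, f ((∏ ρ, colX l d u (g' ρ) ρ) * ((rowM l d a).submatrix id g').det) ≤
        C1 ^ Fintype.card R * P * f ((rowM l d a).submatrix id g').det := by
      intro g'
      by_cases h0 : ((rowM l d a).submatrix id g').det = 0
      · rw [h0, mul_zero, map_zero, mul_zero]
      · rw [map_mul, map_prod]
        refine mul_le_mul_of_nonneg_right ?_ (f.nonneg _)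
        calc ∏ ρ, f (colX l d u (g' ρ) ρ) ≤ ∏ ρ, (C1 * f (mn u (fs (g' ρ).1))) :=
              Finset.prod_le_prod (fun _ _ => f.nonneg _) fun ρ _ => hX _ _
          _ = C1 ^ Fintype.card R * ∏ ρ, f (mn u (fs (g' ρ).1)) := by
              rw [Finset.prod_mul_distrib, Finset.prod_const, Finset.card_univ]
          _ ≤ C1 ^ Fintype.card R * P := by
              refine mul_le_mul_of_nonneg_left ?_ (pow_nonneg (by linarith) _)
              exact hmax g' (Finset.mem_filter.2 ⟨Finset.mem_univ _, h0⟩)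
    refine (Finset.sum_le_sum fun g' _ => h1 g').trans ?_
    rw [← Finset.mul_sum]
    have h2 : ∑ g' : R → Q, f ((rowM l d a).submatrix id g').det ≤ C2 := by
      rw [hC2]
      linarith
    calc C1 ^ Fintype.card R * P * ∑ g' : R → Q, f ((rowM l d a).submatrix id g').det ≤
        C1 ^ Fintype.card R * P * C2 := mul_le_mul_of_nonneg_left h2
          (mul_nonneg (pow_nonneg (by linarith) _) hPpos.le)
      _ = _ := by ring
  -- logarithms
  have hlog := Real.log_le_log (f.pos_iff.2 hdet0) hbound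
  have hl1 : Real.log (f (prodM l d a u).det) =
      n * (∑ J : Fin r → Fin (l + 1), Real.log (f (mn u (fs J))) + Real.log V) +
      ∑ z : Fin r → Fin (l + 1), Real.log (f (eval (zp u z) (Matrix.of a).det)) := by
    rw [hdet, map_mul, map_pow, map_mul, map_prod, map_prod,
      Real.log_mul (pow_pos (mul_pos (Finset.prod_pos fun J _ => f.pos_iff.2 (mn_ne hu _))
        hVpos) _).ne' (Finset.prod_pos fun z _ => f.pos_iff.2 (hD z)).ne',
      Real.log_pow, Real.log_mul (Finset.prod_pos fun J _ => f.pos_iff.2 (mn_ne hu _)).ne'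
        hVpos.ne', Real.log_prod fun J _ => (f.pos_iff.2 (mn_ne hu _)).ne',
      Real.log_prod fun z _ => (f.pos_iff.2 (hD z)).ne']
  have hl2 : Real.log (C1 ^ Fintype.card R * C2 * P) =
      Fintype.card R * Real.log C1 + Real.log C2 + ∑ ρ, Real.log (f (mn u (fs (g ρ).1))) := by
    rw [Real.log_mul (by positivity) hPpos.ne', Real.log_mul (by positivity) (by positivity),
      Real.log_pow, hP, Real.log_prod fun ρ _ => (f.pos_iff.2 (mn_ne hu _)).ne']
  rw [hl1, hl2] at hlog
  linarith

end

end Pool.Agent.N63.MT
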