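import Mathlib
import Pool.Agent.N63.MT.Sel

set_option autoImplicit false
set_option linter.unusedSectionVars false

/-!
Values of polynomials at points with small contribution outside `S`: they are not much smaller than
their terms at the places of `S`.
-/

namespace Pool.Agent.N63.MT

open Finset MvPolynomial Matrix NumberField Height
open Pool.Agent.W180.OP (Pl av wt nrm wt_nonneg)
open Pool.Agent.R405 (Good)

section

variable {F : Type} [Field F] {r : ℕ}

/-- the polynomial with given coefficients in a box -/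
noncomputable def polyOf (m : ℕ) (c : (Fin r → Fin (m + 1)) → F) : MvPolynomial (Fin r) F :=
  ∑ I : Fin r → Fin (m + 1), monomial (fs I) (c I)

theorem coeff_polyOf (m : ℕ) (c : (Fin r → Fin (m + 1)) → F) (I : Fin r → Fin (m + 1)) :
    coeff (fs I) (polyOf m c) = c I := by
  classical
  unfold polyOf
  rw [MvPolynomial.coeff_sum, Finset.sum_eq_single I]
  · rw [MvPolynomial.coeff_monomial, if_pos rfl]
  · intro J' _ hJ'
    rw [MvPolynomial.coeff_monomial, if_neg]
    exact fun h => hJ' (fs_inj h)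
  · intro h
    exact absurd (Finset.mem_univ _) h

theorem polyOf_ne (m : ℕ) {c : (Fin r → Fin (m + 1)) → F} (hc : c ≠ 0) : polyOf m c ≠ 0 := by
  intro h
  apply hc
  funext I
  rw [← coeff_polyOf m c I, h, coeff_zero, Pi.zero_apply]

theorem eval_mono (u : Fin r → F) (I : Fin r →₀ ℕ) (c : F) :
    eval u (monomial I c) = c * mn u I := by
  rw [MvPolynomial.eval_monomial]
  congr 1
  unfold mn
  exact Finsupp.prod_fintype _ _ fun _ => pow_zero _

theorem eval_polyOf (m : ℕ) (c : (Fin r → Fin (m + 1)) → F) (u : Fin r → F) :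
    eval u (polyOf m c) = ∑ I, c I * mn u (fs I) := by
  unfold polyOf
  rw [map_sum]
  exact Finset.sum_congr rfl fun I _ => eval_mono u _ _

/-- a common bound for the degrees -/
theorem exists_deg {β : Type} [Finite β] (G : β → MvPolynomial (Fin r) F) :
    ∃ m : ℕ, ∀ b s, (G b).degreeOf s ≤ m := by
  classical
  have : Fintype β := Fintype.ofFinite β
  refine ⟨∑ b, ∑ s, (G b).degreeOf s, fun b s => ?_⟩
  have h1 := Finset.single_le_sum (f := fun s => (G b).degreeOf s) (fun _ _ => Nat.zero_le _)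
    (Finset.mem_univ s)
  have h2 := Finset.single_le_sum (f := fun b => ∑ s, (G b).degreeOf s)
    (fun _ _ => Nat.zero_le _) (Finset.mem_univ b)
  exact h1.trans h2

end

variable {k K : Type} [Field k] [NumberField k] [Field K] [NumberField K] [Algebra k K] {r : ℕ}

/-- the point over `K` -/
def ku (K : Type) [Field K] [Algebra k K] {n : ℕ} (u : Fin n → k) : Fin n → K :=
  fun i => algebraMap k K (u i)

theorem ku_ne {n : ℕ} {u : Fin n → k} (hu : ∀ i, u i ≠ 0) (i : Fin n) : ku K u i ≠ 0 := by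
  unfold ku
  exact (map_ne_zero _).2 (hu i)

theorem mn_ku (u : Fin r → k) (I : Fin r →₀ ℕ) : mn (ku K u) I = algebraMap k K (mn u I) :=
  mn_map (algebraMap k K) u I

/-- the sum over `S` of the logarithms of the monomials of a box -/
theorem sum_S_box (S : Finset (Pl k)) {u : Fin r → k} (hu : ∀ i, u i ≠ 0) (m : ℕ) :
    ∑ v ∈ S, wt v * ∑ I : Fin r → Fin (m + 1), Real.log (av v (mn u (fs I))) =
      ((m + 1 : ℕ) : ℝ) ^ r * (m / 2) * ∑ i, ∑ v ∈ S, wt v * Real.log (av v (u i)) := by
  simp only [sum_log_box _ hu]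
  rw [Finset.sum_comm, Finset.mul_sum]
  refine Finset.sum_congr rfl fun v _ => ?_
  rw [← Finset.mul_sum]
  ring

/-- the estimate for the values of polynomials -/
theorem su [IsGalois ℚ K] (hi : ∃ z : K, z ^ 2 = -1) (S : Finset (Pl k))
    (f : Pl k → AbsoluteValue K ℝ) (hf : ∀ v ∈ S, Good v (f v)) {β : Type} [Finite β]
    (G : β → MvPolynomial (Fin r) K) (hG : ∀ b, G b ≠ 0) (ε : ℝ) (hε : 0 < ε) :
    ∃ (Z : Finset (MvPolynomial (Fin r) K)) (C1 C2 : ℝ), 0 ≤ C1 ∧ 0 ≤ C2 ∧ (∀ P ∈ Z, P ≠ 0) ∧
      ∀ u : Fin r → k, (∀ i, u i ≠ 0) → (∀ P ∈ Z, eval (ku K u) P ≠ 0) →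
        (∀ b, eval (ku K u) (G b) ≠ 0) ∧
        ∀ (b : Pl k → β) (Iv : Pl k → Fin r →₀ ℕ), (∀ v, Iv v ∈ (G (b v)).support) →
        ∑ v ∈ S, wt v * (Real.log (av v (mn u (Iv v))) -
          Real.log (f v (eval (ku K u) (G (b v))))) ≤
          ε * ∑ i, logHeight₁ (u i) + C1 * ∑ i, ex S (u i) + C2 := by
  classical
  have : Fintype β := Fintype.ofFinite β
  obtain ⟨m, hm⟩ := exists_deg G
  let β' := {p : β × (Fin r → Fin (m + 1)) // coeff (fs p.2) (G p.1) ≠ 0}
  let B : β' → (Fin r → Fin (m + 1)) → (Fin r → Fin (m + 1)) → K := fun p I =>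
    if I = p.1.2 then fun I' => coeff (fs I') (G p.1.1) else Pi.single I 1
  have hdet : ∀ p, (Matrix.of (B p)).det ≠ 0 := by
    intro p h
    obtain ⟨w, hw, hw0⟩ := Matrix.exists_mulVec_eq_zero_iff.2 h
    apply hw
    have h1 : ∀ I, I ≠ p.1.2 → w I = 0 := by
      intro I hI
      have := congrFun hw0 I
      simp only [Matrix.mulVec, dotProduct, Matrix.of_apply, B, if_neg hI, Pi.zero_apply] at this
      rw [Finset.sum_eq_single I] at this
      · simpa using this
      · intro I' _ hI'
        rw [Pi.single_eq_of_ne hI', zero_mul]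
      · intro h
        exact absurd (Finset.mem_univ _) h
    have h2 : w p.1.2 = 0 := by
      have := congrFun hw0 p.1.2
      simp only [Matrix.mulVec, dotProduct, Matrix.of_apply, B, if_pos, Pi.zero_apply] at this
      rw [Finset.sum_eq_single p.1.2] at this
      · exact (mul_eq_zero.1 this).resolve_left p.2
      · intro I' _ hI'
        rw [h1 I' hI', mul_zero]
      · intro h
        exact absurd (Finset.mem_univ _) h
    funext I
    by_cases hI : I = p.1.2
    · rw [hI]; exact h2
    · exact h1 I hI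
  set ε' : ℝ := ε / (m + 1) with hε'
  have hε'0 : 0 < ε' := by positivity
  obtain ⟨Z, C, hC0, hZ, hmain⟩ := sub_choice (ι := Fin r → Fin (m + 1)) hi S f hf B hdet ε' hε'0
  have hcard : (Fintype.card (Fin r → Fin (m + 1)) : ℝ) = ((m + 1 : ℕ) : ℝ) ^ r := by
    rw [Fintype.card_fun, Fintype.card_fin, Fintype.card_fin]
    push_cast
    ring
  refine ⟨Z.image (polyOf m) ∪ Finset.univ.image G, ((m + 1 : ℕ) : ℝ) ^ r * (m / 2), C,
    by positivity, hC0, ?_, ?_⟩
  · intro P hP
    rcases Finset.mem_union.1 hP with hP | hP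
    · obtain ⟨c, hc, rfl⟩ := Finset.mem_image.1 hP
      exact polyOf_ne m (hZ c hc)
    · obtain ⟨b, -, rfl⟩ := Finset.mem_image.1 hP
      exact hG b
  · intro u hu hZu
    have hGu : ∀ b, eval (ku K u) (G b) ≠ 0 := fun b =>
      hZu _ (Finset.mem_union_right _ (Finset.mem_image_of_mem _ (Finset.mem_univ b)))
    refine ⟨hGu, fun b Iv hIv => ?_⟩
    have hIv' : ∀ v, ∃ I : Fin r → Fin (m + 1), fs I = Iv v := by
      intro v
      refine ⟨fun i => ⟨Iv v i, ?_⟩, ?_⟩
      · exact Nat.lt_succ_of_le ((MvPolynomial.monomial_le_degreeOf i (hIv v)).trans (hm _ i))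
      · ext i
        rfl
    choose Ib hIb using hIv'
    have hmem : ∀ v, coeff (fs (Ib v)) (G (b v)) ≠ 0 := by
      intro v
      rw [hIb v]
      exact MvPolynomial.mem_support_iff.1 (hIv v)
    have h1 := hmain (fun I => mn u (fs I)) (fun v => ⟨(b v, Ib v), hmem v⟩) (by
      intro c hc
      have h2 := hZu _ (Finset.mem_union_left _ (Finset.mem_image_of_mem (polyOf m) hc))
      rw [eval_polyOf] at h2
      simpa only [mn_ku] using h2)
    rw [hcard, height_box] at h1
    -- the local terms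
    have hloc : ∀ v ∈ S, ∑ a, (Real.log (sn (av v) fun I : Fin r → Fin (m + 1) => mn u (fs I)) -
        Real.log (f v (∑ j, B ⟨(b v, Ib v), hmem v⟩ a j * algebraMap k K (mn u (fs j))))) =
        ((m + 1 : ℕ) : ℝ) ^ r * (m * ∑ i, lp (av v (u i))) -
          ∑ I : Fin r → Fin (m + 1), Real.log (av v (mn u (fs I))) +
          (Real.log (av v (mn u (Iv v))) - Real.log (f v (eval (ku K u) (G (b v))))) := by
      intro v hv
      rw [Finset.sum_sub_distrib, Finset.sum_const, Finset.card_univ, nsmul_eq_mul, hcard,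
        log_sn_box]
      have h2 : ∀ a : Fin r → Fin (m + 1),
          Real.log (f v (∑ j, B ⟨(b v, Ib v), hmem v⟩ a j * algebraMap k K (mn u (fs j)))) =
          Real.log (av v (mn u (fs a))) + if a = Ib v then
            (Real.log (f v (eval (ku K u) (G (b v)))) - Real.log (av v (mn u (fs a)))) else 0 := by
        intro a
        by_cases ha : a = Ib v
        · rw [if_pos ha]
          have h3 : ∑ j, B ⟨(b v, Ib v), hmem v⟩ a j * algebraMap k K (mn u (fs j)) =
              eval (ku K u) (G (b v)) := by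
            rw [eval_box (G (b v)) m (hm (b v)) (ku K u)]
            refine Finset.sum_congr rfl fun j _ => ?_
            simp only [B, if_pos ha, mn_ku]
          rw [h3]
          ring
        · rw [if_neg ha, add_zero]
          have h3 : ∑ j, B ⟨(b v, Ib v), hmem v⟩ a j * algebraMap k K (mn u (fs j)) =
              algebraMap k K (mn u (fs a)) := by
            rw [Finset.sum_eq_single a]
            · simp only [B, if_neg ha, Pi.single_eq_same, one_mul]
            · intro j _ hj
              simp only [B, if_neg ha, Pi.single_eq_of_ne hj, zero_mul]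
            · intro h
              exact absurd (Finset.mem_univ _) h
          rw [h3, (hf v hv).ext]
      rw [Finset.sum_congr rfl fun a _ => h2 a, Finset.sum_add_distrib, Finset.sum_ite_eq',
        if_pos (Finset.mem_univ _), hIb v]
      ring
    rw [Finset.sum_congr rfl fun v hv => by rw [hloc v hv]] at h1
    have hsplit : ∑ v ∈ S, wt v * (((m + 1 : ℕ) : ℝ) ^ r * (m * ∑ i, lp (av v (u i))) -
          ∑ I : Fin r → Fin (m + 1), Real.log (av v (mn u (fs I))) +
          (Real.log (av v (mn u (Iv v))) - Real.log (f v (eval (ku K u) (G (b v)))))) =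
        ((m + 1 : ℕ) : ℝ) ^ r * (m * ∑ i, ∑ v ∈ S, wt v * lp (av v (u i))) -
        ((m + 1 : ℕ) : ℝ) ^ r * (m / 2) * ∑ i, ∑ v ∈ S, wt v * Real.log (av v (u i)) +
        ∑ v ∈ S, wt v * (Real.log (av v (mn u (Iv v))) -
          Real.log (f v (eval (ku K u) (G (b v))))) := by
      rw [← sum_S_box S hu m]
      have h3 : ∑ i, ∑ v ∈ S, wt v * lp (av v (u i)) = ∑ v ∈ S, wt v * ∑ i, lp (av v (u i)) := by
        rw [Finset.sum_comm]
        exact Finset.sum_congr rfl fun v _ => (Finset.mul_sum _ _ _).symm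
      rw [h3, Finset.mul_sum, Finset.mul_sum, ← Finset.sum_sub_distrib, ← Finset.sum_add_distrib]
      refine Finset.sum_congr rfl fun v _ => ?_
      ring
    rw [hsplit] at h1
    have hex : ∑ i, ex S (u i) = ∑ i, (2 * (logHeight₁ (u i) - ∑ v ∈ S, wt v * lp (av v (u i))) +
        ∑ v ∈ S, wt v * Real.log (av v (u i))) :=
      Finset.sum_congr rfl fun i _ => (ex_facts S (hu i)).2.2.2.symm
    rw [Finset.sum_add_distrib, ← Finset.mul_sum, Finset.sum_sub_distrib] at hex
    have hH : 0 ≤ ∑ i, logHeight₁ (u i) := Finset.sum_nonneg fun i _ => zero_le_logHeight₁ _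
    have hεm : ε' * m ≤ ε := by
      rw [hε', div_mul_eq_mul_div, div_le_iff₀ (by positivity)]
      nlinarith
    have h5 : ε' * m * ∑ i, logHeight₁ (u i) ≤ ε * ∑ i, logHeight₁ (u i) :=
      mul_le_mul_of_nonneg_right hεm hH
    have h6 : ((m + 1 : ℕ) : ℝ) ^ r * (m / 2) * ∑ i, ex S (u i) =
        ((m + 1 : ℕ) : ℝ) ^ r * m * (∑ i, logHeight₁ (u i) -
          ∑ i, ∑ v ∈ S, wt v * lp (av v (u i))) +
        ((m + 1 : ℕ) : ℝ) ^ r * (m / 2) * ∑ i, ∑ v ∈ S, wt v * Real.log (av v (u i)) := by
      rw [hex]; ring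
    rw [h6]
    have h7 : (((m + 1 : ℕ) : ℝ) ^ r + ε') * (m * ∑ i, logHeight₁ (u i)) =
        ((m + 1 : ℕ) : ℝ) ^ r * m * ∑ i, logHeight₁ (u i) +
        ε' * m * ∑ i, logHeight₁ (u i) := by ring
    rw [h7] at h1
    linarith

end Pool.Agent.N63.MT
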