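import Mathlib
import Pool.Agent.N63.MT.SU

set_option autoImplicit false
set_option linter.unusedSectionVars false

/-!
The subspace inequality for moving hyperplanes parametrised by points with small contribution
outside `S`, over a field which is Galois over `ℚ`.
-/

namespace Pool.Agent.N63.MT

open Finset MvPolynomial Matrix NumberField Height
open Pool.Agent.W180.OP (Pl av wt nrm wt_nonneg)
open Pool.Agent.R405 (Good)

section

variable {F : Type} [Field F]

/-- the rows `M ρ`, completed by unit vectors -/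
noncomputable def cpl {R Q : Type} [DecidableEq Q] (M : Matrix R Q F) (g : R → Q) (q : Q) : Q → F :=
  open Classical in if h : ∃ ρ, g ρ = q then M h.choose else Pi.single q 1

theorem cpl_inj {R Q : Type} [Fintype R] [DecidableEq R] [DecidableEq Q] (M : Matrix R Q F)
    (g : R → Q) (h : (M.submatrix id g).det ≠ 0) : Function.Injective g := by
  intro ρ ρ' hρ
  by_contra hne
  apply h
  refine Matrix.det_zero_of_column_eq hne fun i => ?_
  simp only [Matrix.submatrix_apply, hρ]

theorem cpl_g {R Q : Type} [DecidableEq Q] (M : Matrix R Q F) {g : R → Q}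
    (hg : Function.Injective g) (ρ : R) : cpl M g (g ρ) = M ρ := by
  have h : ∃ ρ', g ρ' = g ρ := ⟨ρ, rfl⟩
  unfold cpl
  rw [dif_pos h, hg h.choose_spec]

theorem cpl_ne {R Q : Type} [DecidableEq Q] (M : Matrix R Q F) {g : R → Q} {q : Q}
    (hq : ∀ ρ, g ρ ≠ q) : cpl M g q = Pi.single q 1 := by
  unfold cpl
  rw [dif_neg]
  push Not
  exact hq

theorem cpl_det {R Q : Type} [Fintype R] [DecidableEq R] [Fintype Q] [DecidableEq Q]
    (M : Matrix R Q F) (g : R → Q) (h : (M.submatrix id g).det ≠ 0) :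
    (Matrix.of (cpl M g)).det ≠ 0 := by
  classical
  have hg := cpl_inj M g h
  intro h0
  obtain ⟨w, hw, hw0⟩ := Matrix.exists_mulVec_eq_zero_iff.2 h0
  apply hw
  have h1 : ∀ q, (∀ ρ, g ρ ≠ q) → w q = 0 := by
    intro q hq
    have := congrFun hw0 q
    simp only [Matrix.mulVec, dotProduct, Matrix.of_apply, cpl_ne M hq, Pi.zero_apply] at this
    rw [Finset.sum_eq_single q] at this
    · simpa using this
    · intro q' _ hq'
      rw [Pi.single_eq_of_ne hq', zero_mul]
    · intro h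
      exact absurd (Finset.mem_univ _) h
  have h2 : (M.submatrix id g) *ᵥ (fun ρ => w (g ρ)) = 0 := by
    funext ρ
    have := congrFun hw0 (g ρ)
    simp only [Matrix.mulVec, dotProduct, Matrix.of_apply, cpl_g M hg, Pi.zero_apply] at this
    simp only [Matrix.mulVec, dotProduct, Matrix.submatrix_apply, id, Pi.zero_apply]
    rw [← this]
    have h3 : ∑ ρ', M ρ (g ρ') * w (g ρ') = ∑ q ∈ Finset.univ.image g, M ρ q * w q :=
      (Finset.sum_image (f := fun q => M ρ q * w q) fun a _ b _ hab => hg hab).symm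
    rw [h3]
    refine Finset.sum_subset (Finset.subset_univ _) fun q _ hq => ?_
    rw [h1 q, mul_zero]
    intro ρ' hρ'
    exact hq (Finset.mem_image.2 ⟨ρ', Finset.mem_univ _, hρ'⟩)
  have h3 : (fun ρ => w (g ρ)) = 0 := by
    by_contra hne
    exact h (Matrix.exists_mulVec_eq_zero_iff.1 ⟨_, hne, h2⟩)
  funext q
  by_cases hq : ∃ ρ, g ρ = q
  · obtain ⟨ρ, rfl⟩ := hq
    exact congrFun h3 ρ
  · push Not at hq
    exact h1 q hq

/-- scaling of the variables -/
noncomputable def scl {r : ℕ} (c : Fin r → F) (P : MvPolynomial (Fin r) F) :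
    MvPolynomial (Fin r) F :=
  ∑ I ∈ P.support, monomial I (mn c I * coeff I P)

theorem coeff_scl {r : ℕ} (c : Fin r → F) (P : MvPolynomial (Fin r) F) (I : Fin r →₀ ℕ) :
    coeff I (scl c P) = mn c I * coeff I P := by
  classical
  unfold scl
  rw [MvPolynomial.coeff_sum]
  simp only [MvPolynomial.coeff_monomial]
  rw [Finset.sum_ite_eq']
  split_ifs with h
  · rfl
  · rw [MvPolynomial.notMem_support_iff.1 h, mul_zero]

theorem eval_scl {r : ℕ} (c : Fin r → F) (P : MvPolynomial (Fin r) F) (u : Fin r → F) :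
    eval u (scl c P) = eval (fun i => c i * u i) P := by
  unfold scl
  rw [map_sum, MvPolynomial.eval_eq']
  refine Finset.sum_congr rfl fun I _ => ?_
  rw [eval_mono]
  have : ∏ i, (c i * u i) ^ I i = mn c I * mn u I := mn_mul c u I
  rw [this]
  ring

/-- the exponents of the box become dense -/
theorem exists_l (n r d : ℕ) {ε : ℝ} (hε : 0 < ε) :
    ∃ l : ℕ, (n : ℝ) * ((l + d + 1 : ℕ) : ℝ) ^ r ≤ ((l + 1 : ℕ) : ℝ) ^ r * (n + ε) := by
  have h1 : Filter.Tendsto (fun l : ℕ => (n : ℝ) * (1 + (d : ℝ) / ((l : ℝ) + 1)) ^ r)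
      Filter.atTop (nhds ((n : ℝ) * (1 + 0) ^ r)) := by
    refine Filter.Tendsto.const_mul _ (Filter.Tendsto.pow (Filter.Tendsto.const_add _ ?_) _)
    have h2 := (tendsto_const_div_atTop_nhds_zero_nat (d : ℝ)).comp (Filter.tendsto_add_atTop_nat 1)
    refine h2.congr fun l => ?_
    simp
  rw [add_zero, one_pow, mul_one] at h1
  have h3 := (h1.eventually (gt_mem_nhds (show (n : ℝ) < n + ε by linarith))).exists
  obtain ⟨l, hl⟩ := h3
  refine ⟨l, ?_⟩
  have h4 : (0 : ℝ) < ((l + 1 : ℕ) : ℝ) ^ r := by positivity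
  have h5 : ((l + d + 1 : ℕ) : ℝ) ^ r =
      ((l + 1 : ℕ) : ℝ) ^ r * (1 + (d : ℝ) / ((l : ℝ) + 1)) ^ r := by
    rw [← mul_pow]
    congr 1
    push_cast
    field_simp
    ring
  rw [h5]
  calc (n : ℝ) * (((l + 1 : ℕ) : ℝ) ^ r * (1 + (d : ℝ) / ((l : ℝ) + 1)) ^ r) =
      ((l + 1 : ℕ) : ℝ) ^ r * ((n : ℝ) * (1 + (d : ℝ) / ((l : ℝ) + 1)) ^ r) := by ring
    _ ≤ _ := mul_le_mul_of_nonneg_left hl.le h4.le

theorem sum_split {R Q : Type} [Fintype R] [Fintype Q] [DecidableEq Q] {g : R → Q}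
    (hg : Function.Injective g) (φ : Q → ℝ) :
    ∑ q, φ q = ∑ ρ, φ (g ρ) + ∑ q ∈ Finset.univ \ Finset.univ.image g, φ q := by
  rw [← Finset.sum_image (f := φ) fun a _ b _ hab => hg hab, add_comm]
  exact (Finset.sum_sdiff (Finset.subset_univ _)).symm

end

variable {k K : Type} [Field k] [NumberField k] [Field K] [NumberField K] [Algebra k K]
  {r n : ℕ}

/-- the value of the moving linear form `a` at the point `(u, t)` -/
noncomputable def lv {F : Type} [Field F] (a : Fin n → MvPolynomial (Fin r) F) (u : Fin r → F)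
    (t : Fin n → F) : F := ∑ i, eval u (a i) * t i

/-- the local estimate -/
theorem local_est [CharZero K] (v : Pl k) (fv : AbsoluteValue K ℝ) (hf : Good v fv) (l d : ℕ)
    (a : Fin n → Fin n → MvPolynomial (Fin r) K) (ha : ∀ j i s, (a j i).degreeOf s ≤ d)
    (g : Fin n × (Fin r → Fin (l + 1)) → (Fin r → Fin (l + d + 1)) × Fin n)
    (hg : ((rowM l d a).submatrix id g).det ≠ 0) (C : ℝ) (u : Fin r → k) (hu : ∀ i, u i ≠ 0)
    (hC : n * ∑ J : Fin r → Fin (l + 1), Real.log (fv (mn (ku K u) (fs J))) +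
          ∑ z : Fin r → Fin (l + 1), Real.log (fv (eval (zp (ku K u) z) (Matrix.of a).det)) ≤
          ∑ ρ, Real.log (fv (mn (ku K u) (fs (g ρ).1))) + C)
    (t : Fin n → k) (ht : ∀ i, t i ≠ 0) (htn : t ≠ 0)
    (hy : ∀ j, lv (a j) (ku K u) (ku K t) ≠ 0) :
    (n : ℝ) * ((l + d + 1 : ℕ) : ℝ) ^ r * ((l + d : ℕ) * ∑ i, lp (av v (u i))) -
      n * ∑ I : Fin r → Fin (l + d + 1), Real.log (av v (mn u (fs I))) +
      ((l + 1 : ℕ) : ℝ) ^ r * (∑ j, (Real.log (sn (av v) t) -
        Real.log (fv (lv (a j) (ku K u) (ku K t))))) +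
      ∑ z : Fin r → Fin (l + 1), Real.log (fv (eval (zp (ku K u) z) (Matrix.of a).det)) - C ≤
    ∑ q, (Real.log (sn (av v) (big (l + d) u t)) -
      Real.log (fv (∑ j, cpl (rowM l d a) g q j * algebraMap k K (big (l + d) u t j)))) := by
  classical
  have hginj := cpl_inj _ g hg
  have hW' : (Fintype.card (Fin r → Fin (l + 1)) : ℝ) = ((l + 1 : ℕ) : ℝ) ^ r := by
    rw [Fintype.card_fun, Fintype.card_fin, Fintype.card_fin]
    push_cast
    ring
  have hW : (Fintype.card (Fin r → Fin (l + d + 1)) : ℝ) = ((l + d + 1 : ℕ) : ℝ) ^ r := by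
    rw [Fintype.card_fun, Fintype.card_fin, Fintype.card_fin]
    push_cast
    ring
  have hQ : (Fintype.card ((Fin r → Fin (l + d + 1)) × Fin n) : ℝ) =
      n * ((l + d + 1 : ℕ) : ℝ) ^ r := by
    rw [Fintype.card_prod, Fintype.card_fin]
    push_cast
    rw [hW]
    push_cast
    ring
  have hR : (Fintype.card (Fin n × (Fin r → Fin (l + 1))) : ℝ) = n * ((l + 1 : ℕ) : ℝ) ^ r := by
    rw [Fintype.card_prod, Fintype.card_fin]
    push_cast
    rw [hW']
    push_cast
    ring
  have hbig : ∀ q, algebraMap k K (big (l + d) u t q) = big (l + d) (ku K u) (ku K t) q := by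
    intro q
    unfold big
    rw [map_mul, mn_ku]
    rfl
  have havmn : ∀ I : Fin r →₀ ℕ, fv (mn (ku K u) I) = av v (mn u I) := by
    intro I
    rw [mn_ku, hf.ext]
  have e0 : ∑ q, (Real.log (sn (av v) (big (l + d) u t)) -
      Real.log (fv (∑ j, cpl (rowM l d a) g q j * algebraMap k K (big (l + d) u t j)))) =
      n * ((l + d + 1 : ℕ) : ℝ) ^ r * ((l + d : ℕ) * ∑ i, lp (av v (u i)) +
        Real.log (sn (av v) t)) -
      ∑ q, Real.log (fv (∑ j, cpl (rowM l d a) g q j * algebraMap k K (big (l + d) u t j))) := by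
    rw [Finset.sum_sub_distrib, Finset.sum_const, Finset.card_univ, nsmul_eq_mul, hQ,
      log_sn_big _ _ _ htn]
  rw [e0, sum_split hginj]
  -- the selected rows
  have h1 : ∀ ρ : Fin n × (Fin r → Fin (l + 1)),
      Real.log (fv (∑ j, cpl (rowM l d a) g (g ρ) j * algebraMap k K (big (l + d) u t j))) =
      Real.log (fv (mn (ku K u) (fs ρ.2))) +
        Real.log (fv (lv (a ρ.1) (ku K u) (ku K t))) := by
    intro ρ
    have h2 : ∑ j, cpl (rowM l d a) g (g ρ) j * algebraMap k K (big (l + d) u t j) =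
        mn (ku K u) (fs ρ.2) * lv (a ρ.1) (ku K u) (ku K t) := by
      rw [cpl_g _ hginj]
      simp only [hbig]
      exact row_eval l d a ha (ku K u) (ku K t) ρ
    rw [h2, map_mul, Real.log_mul (fv.pos_iff.2 (mn_ne (ku_ne hu) _)).ne'
      (fv.pos_iff.2 (hy _)).ne']
  -- the other coordinates
  have h2 : ∀ q ∈ Finset.univ \ Finset.univ.image g,
      Real.log (fv (∑ j, cpl (rowM l d a) g q j * algebraMap k K (big (l + d) u t j))) =
      Real.log (av v (mn u (fs q.1))) + Real.log (av v (t q.2)) := by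
    intro q hq
    have hq' : ∀ ρ, g ρ ≠ q := by
      intro ρ hρ
      rw [Finset.mem_sdiff] at hq
      exact hq.2 (Finset.mem_image.2 ⟨ρ, Finset.mem_univ _, hρ⟩)
    rw [cpl_ne _ hq', Finset.sum_eq_single q]
    · rw [Pi.single_eq_same, one_mul, hf.ext]
      unfold big
      rw [map_mul, Real.log_mul ((av v).pos_iff.2 (mn_ne hu _)).ne' ((av v).pos_iff.2 (ht _)).ne']
    · intro j _ hj
      rw [Pi.single_eq_of_ne hj, zero_mul]
    · intro h
      exact absurd (Finset.mem_univ _) h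
  rw [Finset.sum_congr rfl fun ρ _ => h1 ρ, Finset.sum_congr rfl h2, Finset.sum_add_distrib,
    Finset.sum_add_distrib]
  -- sums
  have h3 : ∑ ρ : Fin n × (Fin r → Fin (l + 1)), Real.log (fv (mn (ku K u) (fs ρ.2))) =
      n * ∑ J : Fin r → Fin (l + 1), Real.log (fv (mn (ku K u) (fs J))) := by
    rw [Fintype.sum_prod_type]
    dsimp only
    rw [Finset.sum_const, Finset.card_univ, Fintype.card_fin, nsmul_eq_mul]
  have h4 : ∑ ρ : Fin n × (Fin r → Fin (l + 1)), Real.log (fv (lv (a ρ.1) (ku K u) (ku K t))) =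
      ((l + 1 : ℕ) : ℝ) ^ r * ∑ j, Real.log (fv (lv (a j) (ku K u) (ku K t))) := by
    rw [Fintype.sum_prod_type_right]
    dsimp only
    rw [Finset.sum_const, Finset.card_univ, nsmul_eq_mul, hW']
  have h5 : ∑ q ∈ Finset.univ \ Finset.univ.image g, Real.log (av v (mn u (fs q.1))) =
      n * ∑ I : Fin r → Fin (l + d + 1), Real.log (av v (mn u (fs I))) -
        ∑ ρ, Real.log (fv (mn (ku K u) (fs (g ρ).1))) := by
    have h6 := sum_split hginj (fun q => Real.log (av v (mn u (fs q.1))))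
    have h7 : ∑ q : (Fin r → Fin (l + d + 1)) × Fin n, Real.log (av v (mn u (fs q.1))) =
        n * ∑ I : Fin r → Fin (l + d + 1), Real.log (av v (mn u (fs I))) := by
      rw [Fintype.sum_prod_type_right]
      dsimp only
      rw [Finset.sum_const, Finset.card_univ, Fintype.card_fin, nsmul_eq_mul]
    rw [h7] at h6
    simp only [havmn]
    linarith
  have h6 : ∑ q ∈ Finset.univ \ Finset.univ.image g, Real.log (av v (t q.2)) ≤
      ((n : ℝ) * ((l + d + 1 : ℕ) : ℝ) ^ r - n * ((l + 1 : ℕ) : ℝ) ^ r) *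
        Real.log (sn (av v) t) := by
    have h7 : ∀ q ∈ Finset.univ \ Finset.univ.image g, Real.log (av v (t q.2)) ≤
        Real.log (sn (av v) t) := fun q _ =>
      Real.log_le_log ((av v).pos_iff.2 (ht _)) (le_sn _ _ _)
    refine (Finset.sum_le_sum h7).trans (le_of_eq ?_)
    rw [Finset.sum_const, nsmul_eq_mul]
    congr 1
    have h8 := Finset.card_sdiff_add_card_eq_card (Finset.subset_univ (Finset.univ.image g))
    rw [Finset.card_image_of_injective _ hginj, Finset.card_univ, Finset.card_univ] at h8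
    rw [← hQ, ← hR]
    have h9 : (((Finset.univ \ Finset.univ.image g).card : ℕ) : ℝ) +
        (Fintype.card (Fin n × (Fin r → Fin (l + 1))) : ℝ) =
        (Fintype.card ((Fin r → Fin (l + d + 1)) × Fin n) : ℝ) := by exact_mod_cast h8
    linarith
  rw [h3, h4, h5]
  have h10 : ((l + 1 : ℕ) : ℝ) ^ r * (∑ j, (Real.log (sn (av v) t) -
        Real.log (fv (lv (a j) (ku K u) (ku K t))))) =
      ((l + 1 : ℕ) : ℝ) ^ r * n * Real.log (sn (av v) t) -
        ((l + 1 : ℕ) : ℝ) ^ r * ∑ j, Real.log (fv (lv (a j) (ku K u) (ku K t))) := by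
    rw [Finset.sum_sub_distrib, Finset.sum_const, Finset.card_univ, Fintype.card_fin,
      nsmul_eq_mul]
    ring
  rw [h10]
  linarith [h6, hC]

end Pool.Agent.N63.MT
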