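import Mathlib
import Pool.Agent.N63.MT.Core

set_option autoImplicit false
set_option linter.unusedSectionVars false

/-!
The subspace inequality for moving hyperplanes parametrised by points with small contribution
outside `S`, over a field which is Galois over `ℚ`.
-/

namespace Pool.Agent.N63.MT

open Finset MvPolynomial Matrix NumberField Height
open Pool.Agent.W180.OP (Pl av wt nrm wt_nonneg)
open Pool.Agent.R405 (Good)

variable {k K : Type} [Field k] [NumberField k] [Field K] [NumberField K] [Algebra k K]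
  {r n : ℕ}

theorem core [IsGalois ℚ K] (hi : ∃ z : K, z ^ 2 = -1) (S : Finset (Pl k))
    (f : Pl k → AbsoluteValue K ℝ) (hf : ∀ v, Good v (f v)) {κ : Type} [Finite κ] (hn : 0 < n)
    (a : κ → Fin n → MvPolynomial (Fin r) K) (ε : ℝ) (hε : 0 < ε) :
    ∃ (Z : Finset (Fin n → MvPolynomial (Fin r) K)) (C1 C2 : ℝ), 0 ≤ C1 ∧ 0 ≤ C2 ∧
      (∀ P ∈ Z, P ≠ 0) ∧
      ∀ (u : Fin r → k) (t : Fin n → k), (∀ i, u i ≠ 0) →
        (∀ P ∈ Z, lv P (ku K u) (ku K t) ≠ 0) →
        (∀ j, a j ≠ 0 → lv (a j) (ku K u) (ku K t) ≠ 0) ∧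
        (∀ J : Fin n → κ, (Matrix.of fun j => a (J j)).det ≠ 0 →
          eval (ku K u) (Matrix.of fun j => a (J j)).det ≠ 0) ∧
        ∀ (J : Pl k → Fin n → κ) (Iv : Pl k → Fin r →₀ ℕ),
          (∀ v, Iv v ∈ (Matrix.of fun j => a (J v j)).det.support) →
          ∑ v ∈ S, wt v * (∑ j, (Real.log (sn (av v) t) -
            Real.log (f v (lv (a (J v j)) (ku K u) (ku K t)))) +
            Real.log (av v (mn u (Iv v)))) ≤
            (n + ε) * logHeight t + ε * ∑ i, logHeight₁ (u i) + C1 * ∑ i, ex S (u i) + C2 := by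
  classical
  have : Fintype κ := Fintype.ofFinite κ
  have hn' : Nonempty (Fin n) := ⟨⟨0, hn⟩⟩
  let i0 : Fin n := ⟨0, hn⟩
  -- degrees
  obtain ⟨d, hd⟩ := exists_deg (fun p : κ × Fin n => a p.1 p.2)
  have hdeg : ∀ (J : Fin n → κ) (j i : Fin n) (s : Fin r), (a (J j) i).degreeOf s ≤ d :=
    fun J j i s => hd (J j, i) s
  obtain ⟨l, hl⟩ := exists_l n r d (half_pos hε)
  set W' : ℝ := ((l + 1 : ℕ) : ℝ) ^ r with hW'
  set W : ℝ := ((l + d + 1 : ℕ) : ℝ) ^ r with hW
  have hW'1 : 1 ≤ W' := by
    rw [hW']
    refine one_le_pow₀ ?_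
    push_cast
    have : (0 : ℝ) ≤ l := Nat.cast_nonneg _
    linarith
  have hW0 : 0 ≤ W := by positivity
  -- the polynomials `D_J (ζ u)`
  let G : {p : (Fin n → κ) × (Fin r → Fin (l + 1)) //
      (Matrix.of fun j => a (p.1 j)).det ≠ 0} → MvPolynomial (Fin r) K :=
    fun p => scl (zt K p.1.2) (Matrix.of fun j => a (p.1.1 j)).det
  have hG : ∀ p, G p ≠ 0 := by
    intro p h0
    apply p.2
    ext I
    have h1 := congrArg (coeff I) h0
    simp only [G, coeff_scl, coeff_zero] at h1
    rw [coeff_zero]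
    exact (mul_eq_zero.1 h1).resolve_left (mn_ne (zt_ne _) _)
  obtain ⟨Zu, D1, D2, hD1, hD2, hZu, hsu⟩ := su hi S f (fun v _ => hf v) G hG (ε / 2) (half_pos hε)
  -- the subspace theorem
  let β := {p : (Fin n → κ) × (Fin n × (Fin r → Fin (l + 1)) → (Fin r → Fin (l + d + 1)) × Fin n) //
      ((rowM l d fun j => a (p.1 j)).submatrix id p.2).det ≠ 0}
  let B : β → ((Fin r → Fin (l + d + 1)) × Fin n) → ((Fin r → Fin (l + d + 1)) × Fin n) → K :=
    fun p => cpl (rowM l d fun j => a (p.1.1 j)) p.1.2
  have hB : ∀ p, (Matrix.of (B p)).det ≠ 0 := fun p => cpl_det _ _ p.2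
  obtain ⟨m, hm⟩ : ∃ x : ℝ, x = ((l + d : ℕ) : ℝ) := ⟨_, rfl⟩
  have hm0 : (0 : ℝ) ≤ m := by rw [hm]; exact Nat.cast_nonneg _
  set ε' : ℝ := ε / (2 * (m + 1)) with hε'
  have hε'0 : 0 < ε' := by positivity
  obtain ⟨Z0, C, hC0, hZ0, hmain⟩ := sub_choice
    (ι := (Fin r → Fin (l + d + 1)) × Fin n) hi S f (fun v _ => hf v) B hB ε' hε'0
  -- the selection
  have hsel := fun (v : Pl k) (J : Fin n → κ) =>
    select (f v) l d (fun j => a (J j)) (fun j i s => hdeg J j i s)
  choose Cs hCs using hsel
  set CS : ℝ := ∑ v ∈ S, wt v * ∑ J : Fin n → κ, |Cs v J| with hCS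
  have hCS0 : 0 ≤ CS := Finset.sum_nonneg fun v _ => mul_nonneg (wt_nonneg v)
    (Finset.sum_nonneg fun _ _ => abs_nonneg _)
  refine ⟨Z0.image (fun c i => polyOf (l + d) fun I => c (I, i)) ∪ Zu.image (fun P => Pi.single i0 P) ∪
    Finset.univ.image (fun i : Fin n => Pi.single i 1) ∪
    (Finset.univ.image a).filter (fun P => P ≠ 0),
    n * W * (m / 2) + W' * D1, C + CS + W' * D2, by positivity, by positivity, ?_, ?_⟩
  · intro P hP
    rcases Finset.mem_union.1 hP with hP | hP
    · rcases Finset.mem_union.1 hP with hP | hP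
      · rcases Finset.mem_union.1 hP with hP | hP
        · obtain ⟨c, hc, rfl⟩ := Finset.mem_image.1 hP
          intro h0
          apply hZ0 c hc
          funext q
          have h1 := congrFun h0 q.2
          have h2 := congrArg (coeff (fs q.1)) h1
          simp only [Pi.zero_apply, coeff_zero] at h2
          rw [coeff_polyOf] at h2
          exact h2
        · obtain ⟨P, hP1, rfl⟩ := Finset.mem_image.1 hP
          intro h0
          have := congrFun h0 i0
          rw [Pi.single_eq_same] at this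
          exact hZu P hP1 this
      · obtain ⟨i, -, rfl⟩ := Finset.mem_image.1 hP
        intro h0
        have := congrFun h0 i
        rw [Pi.single_eq_same] at this
        exact one_ne_zero this
    · exact (Finset.mem_filter.1 hP).2
  · intro u t hu hZ
    -- consequences of the choice of `Z`
    have hy : ∀ j, a j ≠ 0 → lv (a j) (ku K u) (ku K t) ≠ 0 := fun j hj =>
      hZ _ (Finset.mem_union_right _ (Finset.mem_filter.2
        ⟨Finset.mem_image_of_mem _ (Finset.mem_univ _), hj⟩))
    have hti : ∀ i, t i ≠ 0 := by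
      intro i h0
      refine hZ (Pi.single i 1) (Finset.mem_union_left _ (Finset.mem_union_right _
        (Finset.mem_image_of_mem _ (Finset.mem_univ i)))) ?_
      unfold lv
      refine Finset.sum_eq_zero fun i' _ => ?_
      by_cases h : i' = i
      · rw [h]
        simp [ku, h0]
      · rw [Pi.single_eq_of_ne h, map_zero, zero_mul]
    have ht : t ≠ 0 := fun h => hti i0 (by rw [h]; rfl)
    have hZu' : ∀ P ∈ Zu, eval (ku K u) P ≠ 0 := by
      intro P hP h0
      refine hZ (Pi.single i0 P) (Finset.mem_union_left _ (Finset.mem_union_left _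
        (Finset.mem_union_right _ (Finset.mem_image_of_mem _ hP)))) ?_
      unfold lv
      refine Finset.sum_eq_zero fun i' _ => ?_
      by_cases h : i' = i0
      · rw [h, Pi.single_eq_same, h0, zero_mul]
      · rw [Pi.single_eq_of_ne h, map_zero, zero_mul]
    obtain ⟨hGne, hsu'⟩ := hsu u hu hZu'
    have hDz : ∀ (J : Fin n → κ), (Matrix.of fun j => a (J j)).det ≠ 0 →
        ∀ z : Fin r → Fin (l + 1), eval (zp (ku K u) z) (Matrix.of fun j => a (J j)).det ≠ 0 := by
      intro J hJ z
      have := hGne ⟨(J, z), hJ⟩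
      simp only [G] at this
      rwa [eval_scl] at this
    refine ⟨hy, fun J hJ => ?_, fun J Iv hIv => ?_⟩
    · have h1 := hDz J hJ 0
      have h2 : zp (ku K u) (0 : Fin r → Fin (l + 1)) = ku K u := by
        funext i
        simp [zp, zt]
      rwa [h2] at h1
    -- the determinants
    have hJ0 : ∀ v, (Matrix.of fun j => a (J v j)).det ≠ 0 := by
      intro v h0
      have := hIv v
      rw [h0, MvPolynomial.support_zero] at this
      exact Finset.notMem_empty _ this
    have hrow : ∀ v j, a (J v j) ≠ 0 := by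
      intro v j h0
      apply hJ0 v
      refine Matrix.det_eq_zero_of_row_eq_zero j fun i => ?_
      simp only [Matrix.of_apply, h0, Pi.zero_apply]
    have hyv : ∀ v j, lv (a (J v j)) (ku K u) (ku K t) ≠ 0 := fun v j => hy _ (hrow v j)
    have hkt : ∀ i, ku K u i ≠ 0 := ku_ne hu
    -- the selection at each place
    have hselv : ∀ v, ∃ g, ((rowM l d fun j => a (J v j)).submatrix id g).det ≠ 0 ∧
        n * ∑ J' : Fin r → Fin (l + 1), Real.log (f v (mn (ku K u) (fs J'))) +
          ∑ z : Fin r → Fin (l + 1),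
            Real.log (f v (eval (zp (ku K u) z) (Matrix.of fun j => a (J v j)).det)) ≤
          ∑ ρ, Real.log (f v (mn (ku K u) (fs (g ρ).1))) + Cs v (J v) :=
      fun v => hCs v (J v) (ku K u) hkt (hDz (J v) (hJ0 v))
    choose g hg1 hg2 using hselv
    have hcard : (Fintype.card ((Fin r → Fin (l + d + 1)) × Fin n) : ℝ) = n * W := by
      simp only [Fintype.card_prod, Fintype.card_fun, Fintype.card_fin]
      rw [hW]
      push_cast
      ring
    have h1 := hmain (big (l + d) u t) (fun v => ⟨(J v, g v), hg1 v⟩) (by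
      intro c hc
      have h2 := hZ _ (Finset.mem_union_left _ (Finset.mem_union_left _
        (Finset.mem_union_left _ (Finset.mem_image_of_mem _ hc))))
      intro h3
      apply h2
      rw [← h3]
      unfold lv
      rw [Fintype.sum_prod_type_right]
      refine Finset.sum_congr rfl fun i _ => ?_
      rw [eval_polyOf, Finset.sum_mul]
      refine Finset.sum_congr rfl fun I _ => ?_
      unfold big
      rw [map_mul, mn_ku]
      simp only [ku]
      ring)
    rw [hcard, height_big _ _ ht, ← hm] at h1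
    have hloc : ∀ v ∈ S, wt v * (n * W * (m * ∑ i, lp (av v (u i))) -
        n * ∑ I : Fin r → Fin (l + d + 1), Real.log (av v (mn u (fs I))) +
        W' * (∑ j, (Real.log (sn (av v) t) -
          Real.log (f v (lv (a (J v j)) (ku K u) (ku K t))))) +
        ∑ z : Fin r → Fin (l + 1),
          Real.log (f v (eval (zp (ku K u) z) (Matrix.of fun j => a (J v j)).det)) -
          ∑ J : Fin n → κ, |Cs v J|) ≤
        wt v * ∑ q, (Real.log (sn (av v) (big (l + d) u t)) -
          Real.log (f v (∑ j, B ⟨(J v, g v), hg1 v⟩ q j *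
            algebraMap k K (big (l + d) u t j)))) := by
      intro v _
      refine mul_le_mul_of_nonneg_left ?_ (wt_nonneg v)
      have h2 := local_est v (f v) (hf v) l d (fun j => a (J v j)) (fun j i s => hdeg (J v) j i s)
        (g v) (hg1 v) (Cs v (J v)) u hu (hg2 v) t hti ht (hyv v)
      have h3 : Cs v (J v) ≤ ∑ J : Fin n → κ, |Cs v J| :=
        (le_abs_self _).trans (Finset.single_le_sum (f := fun J => |Cs v J|)
          (fun _ _ => abs_nonneg _) (Finset.mem_univ _))
      refine le_trans ?_ h2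
      rw [hW, hW', hm]
      linarith
    have h4 := (Finset.sum_le_sum hloc).trans h1
    -- split the sum
    have hsplit : ∑ v ∈ S, wt v * (n * W * (m * ∑ i, lp (av v (u i))) -
        n * ∑ I : Fin r → Fin (l + d + 1), Real.log (av v (mn u (fs I))) +
        W' * (∑ j, (Real.log (sn (av v) t) -
          Real.log (f v (lv (a (J v j)) (ku K u) (ku K t))))) +
        ∑ z : Fin r → Fin (l + 1),
          Real.log (f v (eval (zp (ku K u) z) (Matrix.of fun j => a (J v j)).det)) -
          ∑ J : Fin n → κ, |Cs v J|) =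
        n * W * (m * ∑ i, ∑ v ∈ S, wt v * lp (av v (u i))) -
        n * (W * (m / 2) * ∑ i, ∑ v ∈ S, wt v * Real.log (av v (u i))) +
        W' * ∑ v ∈ S, wt v * (∑ j, (Real.log (sn (av v) t) -
          Real.log (f v (lv (a (J v j)) (ku K u) (ku K t))))) +
        ∑ z : Fin r → Fin (l + 1), ∑ v ∈ S, wt v *
          Real.log (f v (eval (zp (ku K u) z) (Matrix.of fun j => a (J v j)).det)) - CS := by
      have e1 : W * (m / 2) * ∑ i, ∑ v ∈ S, wt v * Real.log (av v (u i)) =
          ∑ v ∈ S, wt v * ∑ I : Fin r → Fin (l + d + 1), Real.log (av v (mn u (fs I))) := by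
        rw [sum_S_box S hu (l + d), ← hm]
      have e2 : ∑ i, ∑ v ∈ S, wt v * lp (av v (u i)) = ∑ v ∈ S, wt v * ∑ i, lp (av v (u i)) := by
        rw [Finset.sum_comm]
        exact Finset.sum_congr rfl fun v _ => (Finset.mul_sum _ _ _).symm
      have e3 : ∑ z : Fin r → Fin (l + 1), ∑ v ∈ S, wt v *
          Real.log (f v (eval (zp (ku K u) z) (Matrix.of fun j => a (J v j)).det)) =
          ∑ v ∈ S, wt v * ∑ z : Fin r → Fin (l + 1),
          Real.log (f v (eval (zp (ku K u) z) (Matrix.of fun j => a (J v j)).det)) := by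
        rw [Finset.sum_comm]
        exact Finset.sum_congr rfl fun v _ => (Finset.mul_sum _ _ _).symm
      rw [e1, e2, e3, hCS]
      simp only [Finset.mul_sum (s := S)]
      rw [← Finset.sum_sub_distrib, ← Finset.sum_add_distrib, ← Finset.sum_add_distrib,
        ← Finset.sum_sub_distrib]
      refine Finset.sum_congr rfl fun v _ => ?_
      ring
    rw [hsplit] at h4
    -- the polynomials `D_J (ζ u)`
    have h5 : ∀ z : Fin r → Fin (l + 1), ∑ v ∈ S, wt v * Real.log (av v (mn u (Iv v))) -
        ∑ v ∈ S, wt v * Real.log (f v (eval (zp (ku K u) z) (Matrix.of fun j => a (J v j)).det)) ≤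
        ε / 2 * ∑ i, logHeight₁ (u i) + D1 * ∑ i, ex S (u i) + D2 := by
      intro z
      have h6 := hsu' (fun v => ⟨(J v, z), hJ0 v⟩) Iv (by
        intro v
        rw [MvPolynomial.mem_support_iff]
        simp only [G, coeff_scl]
        exact mul_ne_zero (mn_ne (zt_ne _) _) (MvPolynomial.mem_support_iff.1 (hIv v)))
      refine le_trans (le_of_eq ?_) h6
      rw [← Finset.sum_sub_distrib]
      refine Finset.sum_congr rfl fun v _ => ?_
      simp only [G, eval_scl]
      rw [mul_sub]
      rfl
    have h6 := Finset.sum_le_sum fun (z : Fin r → Fin (l + 1)) (_ : z ∈ Finset.univ) => h5 z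
    rw [Finset.sum_sub_distrib, Finset.sum_const, Finset.sum_const, Finset.card_univ,
      nsmul_eq_mul, nsmul_eq_mul, Fintype.card_fun, Fintype.card_fin, Fintype.card_fin] at h6
    have hcW : (((l + 1) ^ r : ℕ) : ℝ) = W' := by
      rw [hW']
      push_cast
      ring
    rw [hcW] at h6
    -- the end
    have hex : ∑ i, ex S (u i) = ∑ i, (2 * (logHeight₁ (u i) - ∑ v ∈ S, wt v * lp (av v (u i))) +
        ∑ v ∈ S, wt v * Real.log (av v (u i))) :=
      Finset.sum_congr rfl fun i _ => (ex_facts S (hu i)).2.2.2.symm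
    rw [Finset.sum_add_distrib, ← Finset.mul_sum, Finset.sum_sub_distrib] at hex
    set H : ℝ := ∑ i, logHeight₁ (u i) with hH
    set A : ℝ := ∑ i, ∑ v ∈ S, wt v * lp (av v (u i)) with hA
    set L : ℝ := ∑ i, ∑ v ∈ S, wt v * Real.log (av v (u i)) with hL
    set E : ℝ := ∑ i, ex S (u i) with hE
    set T : ℝ := ∑ v ∈ S, wt v * (∑ j, (Real.log (sn (av v) t) -
          Real.log (f v (lv (a (J v j)) (ku K u) (ku K t))))) with hT
    set M : ℝ := ∑ v ∈ S, wt v * Real.log (av v (mn u (Iv v))) with hM
    set Y : ℝ := ∑ z : Fin r → Fin (l + 1), ∑ v ∈ S, wt v *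
          Real.log (f v (eval (zp (ku K u) z) (Matrix.of fun j => a (J v j)).det)) with hY
    have hgoal : ∑ v ∈ S, wt v * (∑ j, (Real.log (sn (av v) t) -
            Real.log (f v (lv (a (J v j)) (ku K u) (ku K t)))) +
            Real.log (av v (mn u (Iv v)))) = T + M := by
      rw [hT, hM, ← Finset.sum_add_distrib]
      exact Finset.sum_congr rfl fun v _ => mul_add _ _ _
    rw [hgoal]
    have hH0 : 0 ≤ H := Finset.sum_nonneg fun i _ => zero_le_logHeight₁ _
    have hE0 : 0 ≤ E := Finset.sum_nonneg fun i _ => (ex_facts S (hu i)).2.2.1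
    have hht : 0 ≤ logHeight t := logHeight_nonneg t
    have hε'm : ε' * m ≤ ε / 2 := by
      rw [hε', div_mul_eq_mul_div, div_le_div_iff₀ (by positivity) (by norm_num)]
      nlinarith
    have hε'1 : ε' ≤ ε / 2 := by
      rw [hε', div_le_div_iff₀ (by positivity) (by norm_num)]
      nlinarith
    -- from the subspace theorem
    have h7 : W' * T + Y ≤ n * W * logHeight t + n * W * (m / 2) * E + ε' * m * H +
        ε' * logHeight t + C + CS := by
      have e : n * W * (m / 2) * E = n * W * m * (H - A) + n * (W * (m / 2) * L) := by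
        rw [hex]; ring
      rw [e]
      linarith
    have h8 : W' * (T + M) ≤ (n * W + ε') * logHeight t + (n * W * (m / 2) + W' * D1) * E +
        (ε' * m + W' * (ε / 2)) * H + (C + CS + W' * D2) := by
      linarith
    have h9 : W' * (T + M) ≤ W' * ((n + ε) * logHeight t + ε * H +
        (n * W * (m / 2) + W' * D1) * E + (C + CS + W' * D2)) := by
      refine h8.trans ?_
      have f1 : (n * W + ε') * logHeight t ≤ W' * ((n + ε) * logHeight t) := by
        rw [← mul_assoc]
        refine mul_le_mul_of_nonneg_right ?_ hht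
        have : ε / 2 ≤ W' * (ε / 2) := le_mul_of_one_le_left (by positivity) hW'1
        linarith
      have f2 : (n * W * (m / 2) + W' * D1) * E ≤ W' * ((n * W * (m / 2) + W' * D1) * E) :=
        le_mul_of_one_le_left (by positivity) hW'1
      have f3 : (ε' * m + W' * (ε / 2)) * H ≤ W' * (ε * H) := by
        rw [← mul_assoc]
        refine mul_le_mul_of_nonneg_right ?_ hH0
        have : ε / 2 ≤ W' * (ε / 2) := le_mul_of_one_le_left (by positivity) hW'1
        linarith
      have f4 : (C + CS + W' * D2) ≤ W' * (C + CS + W' * D2) :=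
        le_mul_of_one_le_left (by positivity) hW'1
      linarith
    exact le_of_mul_le_mul_left h9 (by linarith)

end Pool.Agent.N63.MT
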