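import Mathlib
import Pool.Agent.N63.MT.Core

set_option autoImplicit false
set_option linter.unusedSectionVars false

/-!
Generic directions and leading coefficients of determinants.
-/

namespace Pool.Agent.N63.MT

open Finset MvPolynomial Matrix

variable {r : ℕ}

/-- the value of the linear functional `ω` at an exponent -/
def dt (ω : Fin r → ℝ) (I : Fin r →₀ ℕ) : ℝ := ∑ i, ω i * (I i : ℝ)

theorem dt_add (ω : Fin r → ℝ) (I J : Fin r →₀ ℕ) : dt ω (I + J) = dt ω I + dt ω J := by
  unfold dt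
  rw [← Finset.sum_add_distrib]
  refine Finset.sum_congr rfl fun i _ => ?_
  rw [Finsupp.add_apply]
  push_cast
  ring

theorem dt_zero (ω : Fin r → ℝ) : dt ω 0 = 0 := by simp [dt]

theorem dt_sum {ι : Type} (ω : Fin r → ℝ) (s : Finset ι) (e : ι → Fin r →₀ ℕ) :
    dt ω (∑ i ∈ s, e i) = ∑ i ∈ s, dt ω (e i) := by
  classical
  induction s using Finset.induction_on with
  | empty => simp [dt_zero]
  | insert a s ha ih => rw [Finset.sum_insert ha, Finset.sum_insert ha, dt_add, ih]

/-- `m j` is the only maximum of `ω` on `A j` -/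
def IsLead {ι : Type} (ω : Fin r → ℝ) (A : ι → Finset (Fin r →₀ ℕ)) (m : ι → Fin r →₀ ℕ) : Prop :=
  ∀ j, m j ∈ A j ∧ ∀ I ∈ A j, I ≠ m j → dt ω I < dt ω (m j)

/-- a functional which separates the elements of a finite set -/
theorem exists_sep (U : Finset (Fin r →₀ ℕ)) :
    ∃ η : Fin r → ℝ, ∀ I ∈ U, ∀ J ∈ U, I ≠ J → dt η I ≠ dt η J := by
  classical
  set P : MvPolynomial (Fin r) ℝ := ∏ p ∈ U ×ˢ U, if p.1 = p.2 then 1 else
    ∑ i, C ((p.1 i : ℝ) - (p.2 i : ℝ)) * X i with hP
  have hP0 : P ≠ 0 := by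
    rw [hP, Finset.prod_ne_zero_iff]
    intro p _
    split_ifs with h
    · exact one_ne_zero
    · intro h0
      apply h
      ext i
      have h1 := congrArg (coeff (Finsupp.single i 1)) h0
      rw [MvPolynomial.coeff_sum, coeff_zero, Finset.sum_eq_single i] at h1
      · rw [MvPolynomial.coeff_C_mul, MvPolynomial.coeff_X, if_pos rfl, mul_one, sub_eq_zero] at h1
        exact_mod_cast h1
      · intro j _ hj
        rw [MvPolynomial.coeff_C_mul, MvPolynomial.coeff_X, if_neg, mul_zero]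
        intro h2
        have := (Finsupp.single_left_inj one_ne_zero).1 h2
        exact hj this
      · intro h
        exact absurd (Finset.mem_univ _) h
  obtain ⟨η, hη⟩ : ∃ η : Fin r → ℝ, eval η P ≠ 0 := by
    by_contra hcon
    push Not at hcon
    exact hP0 (MvPolynomial.funext fun η => by rw [hcon η, map_zero])
  refine ⟨η, fun I hI J hJ hIJ h => hη ?_⟩
  rw [hP, map_prod, Finset.prod_eq_zero_iff]
  refine ⟨(I, J), Finset.mem_product.2 ⟨hI, hJ⟩, ?_⟩
  rw [if_neg hIJ, map_sum]
  have h1 : ∑ i, eval η (C ((I i : ℝ) - (J i : ℝ)) * X i) = dt η I - dt η J := by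
    unfold dt
    rw [← Finset.sum_sub_distrib]
    refine Finset.sum_congr rfl fun i _ => ?_
    rw [map_mul, eval_C, eval_X]
    ring
  rw [h1, h, sub_self]

/-- perturbation of a direction -/
theorem perturb {ι : Type} [Finite ι] (A : ι → Finset (Fin r →₀ ℕ)) (hA : ∀ j, (A j).Nonempty)
    (ω : Fin r → ℝ) : ∃ (ω' : Fin r → ℝ) (m : ι → Fin r →₀ ℕ), IsLead ω' A m ∧
      ∀ j, ∀ I ∈ A j, dt ω I ≤ dt ω (m j) := by
  classical
  have : Fintype ι := Fintype.ofFinite ι
  obtain ⟨η, hη⟩ := exists_sep (Finset.univ.biUnion A)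
  have hmem : ∀ j I, I ∈ A j → I ∈ Finset.univ.biUnion A := fun j I hI =>
    Finset.mem_biUnion.2 ⟨j, Finset.mem_univ _, hI⟩
  have hm : ∀ j, ∃ m ∈ A j, (∀ I ∈ A j, dt ω I ≤ dt ω m) ∧
      ∀ I ∈ A j, dt ω I = dt ω m → dt η I ≤ dt η m := by
    intro j
    obtain ⟨m1, hm1, hmax1⟩ := Finset.exists_max_image (A j) (dt ω) (hA j)
    obtain ⟨m2, hm2, hmax2⟩ := Finset.exists_max_image
      ((A j).filter fun I => dt ω I = dt ω m1) (dt η) ⟨m1, Finset.mem_filter.2 ⟨hm1, rfl⟩⟩
    rw [Finset.mem_filter] at hm2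
    refine ⟨m2, hm2.1, fun I hI => ?_, fun I hI h => ?_⟩
    · rw [hm2.2]
      exact hmax1 I hI
    · exact hmax2 I (Finset.mem_filter.2 ⟨hI, h.trans hm2.2⟩)
  choose m hmA hmω hmη using hm
  have hδ : ∃ δ : ℝ, 0 < δ ∧ ∀ j, ∀ I ∈ A j, dt ω I < dt ω (m j) →
      δ * (dt η I - dt η (m j)) < dt ω (m j) - dt ω I := by
    have h1 : ∀ᶠ δ : ℝ in nhdsWithin 0 (Set.Ioi 0), ∀ j, ∀ I ∈ A j, dt ω I < dt ω (m j) →
        δ * (dt η I - dt η (m j)) < dt ω (m j) - dt ω I := by
      rw [Filter.eventually_all]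
      intro j
      rw [Filter.eventually_all_finset]
      intro I _
      by_cases h : dt ω I < dt ω (m j)
      · have h2 : Filter.Tendsto (fun δ : ℝ => δ * (dt η I - dt η (m j)))
            (nhdsWithin 0 (Set.Ioi 0)) (nhds (0 * (dt η I - dt η (m j)))) :=
          (Filter.tendsto_id.mono_right nhdsWithin_le_nhds).mul_const _
        rw [zero_mul] at h2
        filter_upwards [h2.eventually (gt_mem_nhds (show 0 < dt ω (m j) - dt ω I by linarith))]
          with δ hδ _ using hδ
      · exact Filter.Eventually.of_forall fun δ h' => absurd h' h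
    obtain ⟨δ, h2, h3⟩ := (h1.and self_mem_nhdsWithin).exists
    exact ⟨δ, h3, h2⟩
  obtain ⟨δ, hδ0, hδ⟩ := hδ
  have hdt : ∀ I, dt (fun i => ω i + δ * η i) I = dt ω I + δ * dt η I := by
    intro I
    unfold dt
    rw [Finset.mul_sum, ← Finset.sum_add_distrib]
    exact Finset.sum_congr rfl fun i _ => by ring
  refine ⟨fun i => ω i + δ * η i, m, fun j => ⟨hmA j, fun I hI hne => ?_⟩, hmω⟩
  rw [hdt, hdt]
  rcases lt_or_eq_of_le (hmω j I hI) with h | h
  · have := hδ j I hI h
    linarith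
  · have h1 := hmη j I hI h
    have h2 := hη I (hmem j I hI) (m j) (hmem j _ (hmA j)) hne
    have h3 : dt η I < dt η (m j) := lt_of_le_of_ne h1 h2
    have := mul_lt_mul_of_pos_left h3 hδ0
    linarith

variable {F : Type} [Field F]

/-- leading coefficients of products -/
theorem prod_lead {ι : Type} (ω : Fin r → ℝ) (s : Finset ι) (p : ι → MvPolynomial (Fin r) F)
    (e : ι → Fin r →₀ ℕ) (h : ∀ i ∈ s, ∀ I ∈ (p i).support, I ≠ e i → dt ω I < dt ω (e i)) :
    coeff (∑ i ∈ s, e i) (∏ i ∈ s, p i) = ∏ i ∈ s, coeff (e i) (p i) ∧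
      ∀ I ∈ (∏ i ∈ s, p i).support, I ≠ ∑ i ∈ s, e i → dt ω I < dt ω (∑ i ∈ s, e i) := by
  classical
  induction s using Finset.induction_on with
  | empty =>
    refine ⟨by simp, fun I hI hne => ?_⟩
    exfalso
    apply hne
    rw [Finset.prod_empty] at hI
    rw [Finset.sum_empty]
    by_contra h0
    rw [MvPolynomial.mem_support_iff, MvPolynomial.coeff_one, if_neg (Ne.symm h0)] at hI
    exact hI rfl
  | insert a s ha ih =>
    obtain ⟨ih1, ih2⟩ := ih fun i hi => h i (Finset.mem_insert_of_mem hi)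
    have ha' := h a (Finset.mem_insert_self _ _)
    rw [Finset.sum_insert ha, Finset.prod_insert ha, Finset.prod_insert ha]
    set Q := ∏ i ∈ s, p i with hQ
    set E := ∑ i ∈ s, e i with hE
    have hle : ∀ x ∈ (p a).support, dt ω x ≤ dt ω (e a) := by
      intro x hx
      by_cases h0 : x = e a
      · rw [h0]
      · exact (ha' x hx h0).le
    have hle2 : ∀ y ∈ Q.support, dt ω y ≤ dt ω E := by
      intro y hy
      by_cases h0 : y = E
      · rw [h0]
      · exact (ih2 y hy h0).le
    have hkey : ∀ x ∈ (p a).support, ∀ y ∈ Q.support, ¬ (x = e a ∧ y = E) →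
        dt ω (x + y) < dt ω (e a + E) := by
      intro x hx y hy hxy
      rw [dt_add, dt_add]
      by_cases h0 : x = e a
      · have h1 : y ≠ E := fun h1 => hxy ⟨h0, h1⟩
        have := ih2 y hy h1
        have := hle x hx
        linarith
      · have := ha' x hx h0
        have := hle2 y hy
        linarith
    constructor
    · rw [MvPolynomial.coeff_mul, Finset.sum_eq_single (e a, E)]
      · rw [ih1]
      · intro p' hp' hne
        rw [Finset.HasAntidiagonal.mem_antidiagonal] at hp'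
        by_contra h0
        have h1 : p'.1 ∈ (p a).support := by
          rw [MvPolynomial.mem_support_iff]
          intro h2
          rw [h2, zero_mul] at h0
          exact h0 rfl
        have h3 : p'.2 ∈ Q.support := by
          rw [MvPolynomial.mem_support_iff]
          intro h2
          rw [h2, mul_zero] at h0
          exact h0 rfl
        have h4 := hkey _ h1 _ h3 (fun h5 => hne (Prod.ext h5.1 h5.2))
        rw [hp'] at h4
        exact lt_irrefl _ h4
      · intro h0
        rw [Finset.HasAntidiagonal.mem_antidiagonal] at h0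
        exact (h0 rfl).elim
    · intro I hI hne
      have h1 := MvPolynomial.support_mul _ _ hI
      rw [Finset.mem_add] at h1
      obtain ⟨x, hx, y, hy, rfl⟩ := h1
      refine hkey x hx y hy ?_
      rintro ⟨rfl, rfl⟩
      exact hne rfl

/-- the leading coefficient of a determinant -/
theorem det_lead {n : ℕ} (ω : Fin r → ℝ) (P : Fin n → Fin n → MvPolynomial (Fin r) F)
    (A : Fin n → Finset (Fin r →₀ ℕ)) (hA : ∀ l i, (P l i).support ⊆ A l)
    (m : Fin n → Fin r →₀ ℕ) (hm : IsLead ω A m) :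
    coeff (∑ l, m l) (Matrix.of P).det = (Matrix.of fun l i => coeff (m l) (P l i)).det := by
  classical
  rw [Matrix.det_apply, Matrix.det_apply, MvPolynomial.coeff_sum]
  refine Finset.sum_congr rfl fun σ _ => ?_
  have h1 : ∑ l, m l = ∑ i, m (σ i) := (Equiv.sum_comp σ m).symm
  have h2 := (prod_lead ω Finset.univ (fun i => P (σ i) i) (fun i => m (σ i))
    (fun i _ I hI hne => (hm (σ i)).2 I (hA _ _ hI) hne)).1
  have h3 : coeff (∑ l, m l) (Equiv.Perm.sign σ • ∏ i, (Matrix.of P) (σ i) i) =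
      Equiv.Perm.sign σ • coeff (∑ l, m l) (∏ i, P (σ i) i) := by
    rcases Int.units_eq_one_or (Equiv.Perm.sign σ) with h | h
    · rw [h, one_smul, one_smul]
      rfl
    · rw [h, Units.neg_smul, Units.neg_smul, one_smul, one_smul, MvPolynomial.coeff_neg]
      rfl
  rw [h3, h1, h2]
  rfl

end Pool.Agent.N63.MT
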