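import Mathlib
import Pool.Agent.N63.MT.Pert

set_option autoImplicit false
set_option linter.unusedSectionVars false

/-!
Hyperplanes in general position in all directions: the choice of `n` hyperplanes at one place.
-/

namespace Pool.Agent.N63.MT

open Finset MvPolynomial Matrix

section

variable {K : Type} [Field K] {r n : ℕ}

/-- the maximum of the absolute values of the monomials with exponents in `A` -/
noncomputable def nA (f : AbsoluteValue K ℝ) (A : Finset (Fin r →₀ ℕ)) (u : Fin r → K) : ℝ :=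
  ⨆ I : {I // I ∈ A}, f (mn u I.1)

theorem le_nA (f : AbsoluteValue K ℝ) {A : Finset (Fin r →₀ ℕ)} (u : Fin r → K) {I : Fin r →₀ ℕ}
    (hI : I ∈ A) : f (mn u I) ≤ nA f A u :=
  le_ciSup (f := fun I : {I // I ∈ A} => f (mn u I.1)) (Set.finite_range _).bddAbove ⟨I, hI⟩

theorem nA_pos (f : AbsoluteValue K ℝ) {A : Finset (Fin r →₀ ℕ)} (hA : A.Nonempty)
    {u : Fin r → K} (hu : ∀ i, u i ≠ 0) : 0 < nA f A u := by
  obtain ⟨I, hI⟩ := hA
  exact (f.pos_iff.2 (mn_ne hu I)).trans_le (le_nA f u hI)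

theorem log_mn_dt (f : AbsoluteValue K ℝ) {u : Fin r → K} (hu : ∀ i, u i ≠ 0) (I : Fin r →₀ ℕ) :
    Real.log (f (mn u I)) = dt (fun i => Real.log (f (u i))) I := by
  rw [log_mn f hu]
  unfold dt
  exact Finset.sum_congr rfl fun i _ => mul_comm _ _

theorem nA_eq (f : AbsoluteValue K ℝ) {A : Finset (Fin r →₀ ℕ)} {u : Fin r → K}
    (hu : ∀ i, u i ≠ 0) {m : Fin r →₀ ℕ} (hm : m ∈ A)
    (hmax : ∀ I ∈ A, dt (fun i => Real.log (f (u i))) I ≤ dt (fun i => Real.log (f (u i))) m) :
    nA f A u = f (mn u m) := by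
  apply le_antisymm
  · have : Nonempty {I // I ∈ A} := ⟨⟨m, hm⟩⟩
    refine ciSup_le fun I => ?_
    have h1 := hmax I.1 I.2
    rw [← log_mn_dt f hu, ← log_mn_dt f hu] at h1
    exact (Real.log_le_log_iff (f.pos_iff.2 (mn_ne hu _)) (f.pos_iff.2 (mn_ne hu _))).1 h1
  · exact le_nA f u hm

theorem eval_le_nA (f : AbsoluteValue K ℝ) {A : Finset (Fin r →₀ ℕ)}
    (P : MvPolynomial (Fin r) K) (hP : P.support ⊆ A) (u : Fin r → K) :
    f (eval u P) ≤ (∑ I ∈ P.support, f (coeff I P)) * nA f A u := by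
  rw [MvPolynomial.eval_eq', Finset.sum_mul]
  refine (f.sum_le _ _).trans (Finset.sum_le_sum fun I hI => ?_)
  rw [map_mul]
  exact mul_le_mul_of_nonneg_left (le_nA f u (hP hI)) (f.nonneg _)

/-- the determinant is small if all linear forms are small -/
theorem cram (f : AbsoluteValue K ℝ) (B : Matrix (Fin n) (Fin n) K) (R : Fin n → ℝ)
    (hR : ∀ l, 0 < R l) (c : ℝ) (hc : 1 ≤ c) (hB : ∀ l i, f (B l i) ≤ c * R l) (t : Fin n → K)
    (i0 : Fin n) (hi0 : 0 < f (t i0)) (δ : ℝ) (hδ : 0 ≤ δ)
    (hy : ∀ l, f (∑ i, B l i * t i) ≤ R l * f (t i0) * δ) :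
    f B.det ≤ (Fintype.card (Equiv.Perm (Fin n)) * c ^ n * ∏ l, R l) * δ := by
  classical
  have h1 : (B.updateCol i0 (B *ᵥ t)).det = B.det * t i0 := by
    have h2 := congrFun (Matrix.cramer_eq_adjugate_mulVec B (B *ᵥ t)) i0
    rw [Matrix.cramer_apply] at h2
    rw [h2, Matrix.mulVec_mulVec, Matrix.adjugate_mul, Matrix.smul_mulVec, Matrix.one_mulVec,
      Pi.smul_apply, smul_eq_mul]
  have h2 : f ((B.updateCol i0 (B *ᵥ t)).det) ≤
      (Fintype.card (Equiv.Perm (Fin n)) * c ^ n * ∏ l, R l) * (f (t i0) * δ) := by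
    rw [Matrix.det_apply]
    refine (f.sum_le _ _).trans ?_
    have h3 : ∀ σ : Equiv.Perm (Fin n), f (Equiv.Perm.sign σ •
        ∏ i, (B.updateCol i0 (B *ᵥ t)) (σ i) i) ≤ c ^ n * (∏ l, R l) * (f (t i0) * δ) := by
      intro σ
      have h4 : f (Equiv.Perm.sign σ • ∏ i, (B.updateCol i0 (B *ᵥ t)) (σ i) i) =
          ∏ i, f ((B.updateCol i0 (B *ᵥ t)) (σ i) i) := by
        rw [← map_prod]
        rcases Int.units_eq_one_or (Equiv.Perm.sign σ) with h | h
        · rw [h, one_smul]
        · rw [h, Units.neg_smul, one_smul, f.map_neg]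
      rw [h4]
      have h5 : ∀ i, f ((B.updateCol i0 (B *ᵥ t)) (σ i) i) ≤
          c * R (σ i) * (if i = i0 then f (t i0) * δ else 1) := by
        intro i
        rw [Matrix.updateCol_apply]
        split_ifs with h
        · have h6 := hy (σ i)
          have h7 : (B *ᵥ t) (σ i) = ∑ i', B (σ i) i' * t i' := rfl
          rw [h7]
          refine h6.trans ?_
          have : 0 ≤ R (σ i) * (f (t i0) * δ) := by
            have := (hR (σ i)).le
            positivity
          nlinarith
        · rw [mul_one]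
          exact hB _ _
      refine (Finset.prod_le_prod (fun i _ => f.nonneg _) fun i _ => h5 i).trans (le_of_eq ?_)
      rw [Finset.prod_mul_distrib, Finset.prod_mul_distrib, Finset.prod_const,
        Finset.card_univ, Fintype.card_fin, Finset.prod_ite_eq', if_pos (Finset.mem_univ _),
        Equiv.prod_comp σ R]
    refine (Finset.sum_le_sum fun σ _ => h3 σ).trans (le_of_eq ?_)
    rw [Finset.sum_const, Finset.card_univ, nsmul_eq_mul]
    ring
  rw [h1, map_mul] at h2
  have h3 : f B.det * f (t i0) ≤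
      ((Fintype.card (Equiv.Perm (Fin n)) * c ^ n * ∏ l, R l) * δ) * f (t i0) := by
    linarith
  exact le_of_mul_le_mul_right h3 hi0

theorem det_bound (f : AbsoluteValue K ℝ) (B : Matrix (Fin n) (Fin n) K) (R : Fin n → ℝ)
    (c : ℝ) (hB : ∀ l i, f (B l i) ≤ c * R l) :
    f B.det ≤ Fintype.card (Equiv.Perm (Fin n)) * c ^ n * ∏ l, R l := by
  classical
  rw [Matrix.det_apply]
  refine (f.sum_le _ _).trans ?_
  have h3 : ∀ σ : Equiv.Perm (Fin n), f (Equiv.Perm.sign σ • ∏ i, B (σ i) i) ≤
      c ^ n * ∏ l, R l := by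
    intro σ
    have h4 : f (Equiv.Perm.sign σ • ∏ i, B (σ i) i) = ∏ i, f (B (σ i) i) := by
      rw [← map_prod]
      rcases Int.units_eq_one_or (Equiv.Perm.sign σ) with h | h
      · rw [h, one_smul]
      · rw [h, Units.neg_smul, one_smul, f.map_neg]
    rw [h4]
    refine (Finset.prod_le_prod (fun i _ => f.nonneg _) fun i _ => hB (σ i) i).trans
      (le_of_eq ?_)
    rw [Finset.prod_mul_distrib, Finset.prod_const, Finset.card_univ, Fintype.card_fin,
      Equiv.prod_comp σ R]
  refine (Finset.sum_le_sum fun σ _ => h3 σ).trans (le_of_eq ?_)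
  rw [Finset.sum_const, Finset.card_univ, nsmul_eq_mul]
  ring

variable {q : ℕ}

/-- the moving hyperplanes and the coordinate hyperplanes -/
noncomputable def ah (a : Fin q → Fin n → MvPolynomial (Fin r) K) :
    Fin q ⊕ Fin n → Fin n → MvPolynomial (Fin r) K :=
  Sum.elim a fun i => Pi.single i 1

/-- the sets of exponents -/
def Ah (n : ℕ) (A : Fin q → Finset (Fin r →₀ ℕ)) : Fin q ⊕ Fin n → Finset (Fin r →₀ ℕ) :=
  Sum.elim A fun _ => {0}

theorem ah_supp (a : Fin q → Fin n → MvPolynomial (Fin r) K) (A : Fin q → Finset (Fin r →₀ ℕ))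
    (hA : ∀ j i, (a j i).support ⊆ A j) (c : Fin q ⊕ Fin n) (i : Fin n) :
    (ah a c i).support ⊆ Ah n A c := by
  rcases c with j | i'
  · exact hA j i
  · show ((Pi.single i' 1 : Fin n → MvPolynomial (Fin r) K) i).support ⊆ {0}
    by_cases h : i = i'
    · rw [h, Pi.single_eq_same]
      intro I hI
      rw [MvPolynomial.mem_support_iff, MvPolynomial.coeff_one] at hI
      rw [Finset.mem_singleton]
      by_contra h0
      exact hI (if_neg (Ne.symm h0))
    · rw [Pi.single_eq_of_ne h, MvPolynomial.support_zero]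
      exact Finset.empty_subset _

/-- in all generic directions the hyperplanes of the leading coefficients are in general position -/
def GenPos (A : Fin q → Finset (Fin r →₀ ℕ)) (a : Fin q → Fin n → MvPolynomial (Fin r) K) : Prop :=
  ∀ (ω : Fin r → ℝ) (m : Fin q → Fin r →₀ ℕ), IsLead ω A m → ∀ s : Finset (Fin q), s.card ≤ n →
    LinearIndepOn K (fun j i => coeff (m j) (a j i)) (s : Set (Fin q))

/-- the local height of the hyperplane `c` at the point `(u, t)` -/
noncomputable def lh (f : AbsoluteValue K ℝ) (A : Fin q → Finset (Fin r →₀ ℕ))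
    (a : Fin q → Fin n → MvPolynomial (Fin r) K) (u : Fin r → K) (t : Fin n → K)
    (c : Fin q ⊕ Fin n) : ℝ :=
  Real.log (nA f (Ah n A c) u) + Real.log (sn f t) - Real.log (f (lv (ah a c) u t))

/-- completion to a basis -/
theorem complete (A : Fin q → Finset (Fin r →₀ ℕ)) (a : Fin q → Fin n → MvPolynomial (Fin r) K)
    (hgp : GenPos A a) (ω : Fin r → ℝ) (m : Fin q ⊕ Fin n → Fin r →₀ ℕ)
    (hm : IsLead ω (Ah n A) m) (s : Finset (Fin q)) (hs : s.card ≤ n) :
    ∃ (b : Finset (Fin q ⊕ Fin n)) (e : Fin n ≃ b), (∀ j ∈ s, Sum.inl j ∈ b) ∧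
      (Matrix.of fun l i => coeff (m (e l).1) (ah a (e l).1 i)).det ≠ 0 := by
  classical
  set vec : Fin q ⊕ Fin n → Fin n → K := fun c i => coeff (m c) (ah a c i) with hvec
  have hm' : IsLead ω A (fun j => m (Sum.inl j)) := fun j => hm (Sum.inl j)
  have h1 : LinearIndepOn K vec (Sum.inl '' (s : Set (Fin q))) :=
    LinearIndepOn.image_of_comp Sum.inl vec (hgp ω _ hm' s hs)
  obtain ⟨b, -, hsb, hspan, hb⟩ := exists_linearIndepOn_extension h1 (Set.subset_univ _)
  have htop : Submodule.span K (vec '' b) = ⊤ := by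
    rw [eq_top_iff]
    have h2 : Submodule.span K (Set.range fun i : Fin n => (Pi.single i 1 : Fin n → K)) = ⊤ := by
      have := (Pi.basisFun K (Fin n)).span_eq
      convert this using 3
      funext i
      exact (Pi.basisFun_apply K (Fin n) i).symm
    rw [← h2, Submodule.span_le]
    rintro _ ⟨i, rfl⟩
    refine hspan ⟨Sum.inr i, Set.mem_univ _, ?_⟩
    funext i'
    have hmi : m (Sum.inr i) = 0 := by
      have := (hm (Sum.inr i)).1
      exact Finset.mem_singleton.1 this
    show coeff (m (Sum.inr i)) ((Pi.single i 1 : Fin n → MvPolynomial (Fin r) K) i') =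
      (Pi.single i 1 : Fin n → K) i'
    rw [hmi]
    by_cases h : i' = i
    · rw [h, Pi.single_eq_same, Pi.single_eq_same]
      exact MvPolynomial.coeff_zero_one
    · rw [Pi.single_eq_of_ne h, Pi.single_eq_of_ne h, MvPolynomial.coeff_zero]
  have hfb : Fintype b := Fintype.ofFinite _
  have hcard : Fintype.card b = n := by
    have h3 := finrank_span_eq_card (R := K) (b := fun x : b => vec x.1) hb
    have h4 : Set.range (fun x : b => vec x.1) = vec '' b := by
      ext y
      constructor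
      · rintro ⟨x, rfl⟩
        exact ⟨x.1, x.2, rfl⟩
      · rintro ⟨x, hx, rfl⟩
        exact ⟨⟨x, hx⟩, rfl⟩
    rw [h4, htop, finrank_top, Module.finrank_fin_fun] at h3
    exact h3.symm
  have hbf : b.toFinset.card = n := by rw [Set.toFinset_card]; exact hcard
  have e : Fin n ≃ b.toFinset := (b.toFinset.equivFinOfCardEq hbf).symm
  refine ⟨b.toFinset, e, fun j hj => ?_, ?_⟩
  · rw [Set.mem_toFinset]
    exact hsb ⟨j, hj, rfl⟩
  · have h5 : LinearIndependent K (fun l : Fin n => vec (e l).1) := by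
      have h6 : LinearIndependent K (fun x : b => vec x.1) := hb
      refine h6.comp (fun l : Fin n => (⟨(e l).1, Set.mem_toFinset.1 (e l).2⟩ : b)) ?_
      intro l l' h
      have h7 : (e l).1 = (e l').1 := congrArg (fun x : b => x.1) h
      exact e.injective (Subtype.ext h7)
    have h2 := (Matrix.linearIndependent_rows_iff_isUnit
      (A := Matrix.of fun l : Fin n => vec (e l).1)).1 h5
    rw [Matrix.isUnit_iff_isUnit_det] at h2
    exact h2.ne_zero

end

end Pool.Agent.N63.MT
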