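import Mathlib
import Pool.Agent.N63.MT.Pos

set_option autoImplicit false
set_option linter.unusedSectionVars false

/-!
Hyperplanes in general position in all directions: the choice of `n` hyperplanes at one place.
-/

namespace Pool.Agent.N63.MT

open Finset MvPolynomial Matrix

variable {K : Type} [Field K] {r n q : ℕ}

theorem place_choice (f : AbsoluteValue K ℝ) (hn : 0 < n) (A : Fin q → Finset (Fin r →₀ ℕ))
    (hAne : ∀ j, (A j).Nonempty) (a : Fin q → Fin n → MvPolynomial (Fin r) K)
    (hA : ∀ j i, (a j i).support ⊆ A j) (hgp : GenPos A a) :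
    ∃ C : ℝ, 0 ≤ C ∧ ∀ (u : Fin r → K) (t : Fin n → K), (∀ i, u i ≠ 0) → (∀ i, t i ≠ 0) →
      (∀ c, lv (ah a c) u t ≠ 0) →
      (∀ J : Fin n → Fin q ⊕ Fin n, (Matrix.of fun l => ah a (J l)).det ≠ 0 →
        eval u (Matrix.of fun l => ah a (J l)).det ≠ 0) →
      ∃ (J : Fin n → Fin q ⊕ Fin n) (Iv : Fin r →₀ ℕ),
        Iv ∈ (Matrix.of fun l => ah a (J l)).det.support ∧
        0 ≤ Real.log (f (mn u Iv)) -
          Real.log (f (eval u (Matrix.of fun l => ah a (J l)).det)) + C ∧
        ∑ j, lh f A a u t (Sum.inl j) ≤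
          ∑ l, (Real.log (sn f t) - Real.log (f (lv (ah a (J l)) u t))) +
            Real.log (f (mn u Iv)) +
          q * (Real.log (f (mn u Iv)) -
            Real.log (f (eval u (Matrix.of fun l => ah a (J l)).det)) + C) := by
  classical
  have hAh : ∀ c, (Ah n A c).Nonempty := by
    rintro (j | i)
    · exact hAne j
    · exact ⟨0, Finset.mem_singleton_self 0⟩
  set c0 : ℝ := 1 + ∑ c, ∑ i, ∑ I ∈ (ah a c i).support, f (coeff I (ah a c i)) with hc0
  have hc01 : 1 ≤ c0 := by
    have : 0 ≤ ∑ c, ∑ i, ∑ I ∈ (ah a c i).support, f (coeff I (ah a c i)) :=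
      Finset.sum_nonneg fun _ _ => Finset.sum_nonneg fun _ _ => Finset.sum_nonneg fun _ _ =>
        f.nonneg _
    linarith
  have hbd : ∀ (u : Fin r → K), (∀ i, u i ≠ 0) → ∀ c i,
      f (eval u (ah a c i)) ≤ c0 * nA f (Ah n A c) u := by
    intro u hu c i
    refine (eval_le_nA f (ah a c i) (ah_supp a A hA c i) u).trans ?_
    refine mul_le_mul_of_nonneg_right ?_ (nA_pos f (hAh c) hu).le
    have h1 := Finset.single_le_sum (f := fun i => ∑ I ∈ (ah a c i).support,
      f (coeff I (ah a c i))) (fun _ _ => Finset.sum_nonneg fun _ _ => f.nonneg _)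
      (Finset.mem_univ i)
    have h2 := Finset.single_le_sum (f := fun c => ∑ i, ∑ I ∈ (ah a c i).support,
      f (coeff I (ah a c i))) (fun _ _ => Finset.sum_nonneg fun _ _ =>
        Finset.sum_nonneg fun _ _ => f.nonneg _) (Finset.mem_univ c)
    linarith
  set c1 : ℝ := Fintype.card (Equiv.Perm (Fin n)) * c0 ^ n with hc1
  have hcardp : (1 : ℝ) ≤ Fintype.card (Equiv.Perm (Fin n)) := by
    exact_mod_cast Fintype.card_pos
  have hc11 : 1 ≤ c1 := by
    rw [hc1]
    have := one_le_pow₀ hc01 (n := n)
    nlinarith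
  refine ⟨Real.log c1, Real.log_nonneg hc11, fun u t hu ht hlv hdet => ?_⟩
  have htn : t ≠ 0 := fun h => ht ⟨0, hn⟩ (by rw [h]; rfl)
  have hn' : Nonempty (Fin n) := ⟨⟨0, hn⟩⟩
  have hT := sn_pos f htn
  -- the hyperplanes with the largest local heights
  obtain ⟨s, hs, hsmax⟩ := Finset.exists_max_image
    (Finset.powersetCard (min q n) (Finset.univ : Finset (Fin q)))
    (fun s => ∑ j ∈ s, lh f A a u t (Sum.inl j))
    (Finset.powersetCard_nonempty.2 (by rw [Finset.card_univ, Fintype.card_fin]; exact min_le_left _ _))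
  rw [Finset.mem_powersetCard] at hs
  have hscard : s.card = min q n := hs.2
  have hsn : s.card ≤ n := by rw [hscard]; exact min_le_right _ _
  -- the direction
  obtain ⟨ω', m, hlead, hmax⟩ := perturb (Ah n A) hAh (fun i => Real.log (f (u i)))
  obtain ⟨b, e, hb, hdete⟩ := complete A a hgp ω' m hlead s hsn
  set J : Fin n → Fin q ⊕ Fin n := fun l => (e l).1 with hJ
  set Iv : Fin r →₀ ℕ := ∑ l, m (J l) with hIv
  have hcoef : coeff Iv (Matrix.of fun l => ah a (J l)).det ≠ 0 := by
    have h1 := det_lead ω' (fun l => ah a (J l)) (fun l => Ah n A (J l))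
      (fun l i => ah_supp a A hA (J l) i) (fun l => m (J l)) (fun l => hlead (J l))
    rw [hIv, h1]
    exact hdete
  have hdetJ : (Matrix.of fun l => ah a (J l)).det ≠ 0 := by
    intro h
    apply hcoef
    rw [h, coeff_zero]
  have hev := hdet J hdetJ
  have hnA : ∀ c, nA f (Ah n A c) u = f (mn u (m c)) := fun c =>
    nA_eq f hu (hlead c).1 (hmax c)
  have hlogIv : Real.log (f (mn u Iv)) = ∑ l, Real.log (nA f (Ah n A (J l)) u) := by
    rw [log_mn_dt f hu, hIv, dt_sum]
    refine Finset.sum_congr rfl fun l _ => ?_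
    rw [hnA, log_mn_dt f hu]
  have hprod : Real.log (∏ l, nA f (Ah n A (J l)) u) = Real.log (f (mn u Iv)) := by
    rw [Real.log_prod fun l _ => (nA_pos f (hAh _) hu).ne', hlogIv]
  have hprodpos : 0 < ∏ l, nA f (Ah n A (J l)) u :=
    Finset.prod_pos fun l _ => nA_pos f (hAh _) hu
  have hdetev : eval u (Matrix.of fun l => ah a (J l)).det =
      (Matrix.of fun l i => eval u (ah a (J l) i)).det := by
    rw [RingHom.map_det]
    rfl
  -- the lower bound
  have hbr : 0 ≤ Real.log (f (mn u Iv)) -
      Real.log (f (eval u (Matrix.of fun l => ah a (J l)).det)) + Real.log c1 := by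
    have h1 := det_bound f (Matrix.of fun l i => eval u (ah a (J l) i))
      (fun l => nA f (Ah n A (J l)) u) c0 (fun l i => hbd u hu (J l) i)
    rw [← hdetev] at h1
    have h2 := Real.log_le_log (f.pos_iff.2 hev) h1
    rw [Real.log_mul (by positivity) hprodpos.ne', hprod, ← hc1] at h2
    linarith
  refine ⟨J, Iv, MvPolynomial.mem_support_iff.2 hcoef, hbr, ?_⟩
  -- the chosen hyperplanes
  have hsum1 : ∑ l, (Real.log (sn f t) - Real.log (f (lv (ah a (J l)) u t))) +
      Real.log (f (mn u Iv)) = ∑ c ∈ b, lh f A a u t c := by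
    have h1 : ∑ c ∈ b, lh f A a u t c = ∑ l, lh f A a u t (J l) := by
      rw [← Finset.sum_coe_sort b]
      exact (Equiv.sum_comp e fun c : b => lh f A a u t c.1).symm
    rw [h1, hlogIv, ← Finset.sum_add_distrib]
    refine Finset.sum_congr rfl fun l _ => ?_
    unfold lh
    ring
  have hinr : ∀ i, 0 ≤ lh f A a u t (Sum.inr i) := by
    intro i
    unfold lh
    have h1 : nA f (Ah n A (Sum.inr i)) u = 1 := by
      rw [hnA]
      have : m (Sum.inr i) = 0 := Finset.mem_singleton.1 (hlead (Sum.inr i)).1
      rw [this, mn_zero, map_one]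
    have h2 : lv (ah a (Sum.inr i)) u t = t i := by
      unfold lv
      rw [Finset.sum_eq_single i]
      · show eval u ((Pi.single i 1 : Fin n → MvPolynomial (Fin r) K) i) * t i = t i
        rw [Pi.single_eq_same, map_one, one_mul]
      · intro i' _ hi'
        show eval u ((Pi.single i 1 : Fin n → MvPolynomial (Fin r) K) i') * t i' = 0
        rw [Pi.single_eq_of_ne hi', map_zero, zero_mul]
      · intro h
        exact absurd (Finset.mem_univ _) h
    rw [h1, h2, Real.log_one, zero_add, sub_nonneg]
    exact Real.log_le_log (f.pos_iff.2 (ht i)) (le_sn f t i)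
  have hbcard : b.card = n := by
    have := Fintype.card_congr e
    rw [Fintype.card_fin, Fintype.card_coe] at this
    exact this.symm
  have hsub : s.map Function.Embedding.inl ⊆ b := by
    intro c hc
    rw [Finset.mem_map] at hc
    obtain ⟨j, hj, rfl⟩ := hc
    exact hb j hj
  have hrest : ∀ c ∈ b, c ∉ s.map Function.Embedding.inl → 0 ≤ lh f A a u t c := by
    rintro (j | i) hc hcs
    · exfalso
      have hjs : j ∉ s := fun hj => hcs (Finset.mem_map.2 ⟨j, hj, rfl⟩)
      have h1 : (insert (Sum.inl j) (s.map Function.Embedding.inl)) ⊆ b :=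
        Finset.insert_subset hc hsub
      have h2 := Finset.card_le_card h1
      rw [Finset.card_insert_of_notMem hcs, Finset.card_map, hbcard] at h2
      have h3 : s.card < q := by
        have := Finset.card_lt_univ_of_notMem hjs
        rwa [Fintype.card_fin] at this
      rw [hscard] at h2 h3
      rcases min_choice q n with h | h
      · rw [h] at h3; exact lt_irrefl _ h3
      · rw [h] at h2; omega
    · exact hinr i
  have hsum2 : ∑ j ∈ s, lh f A a u t (Sum.inl j) ≤ ∑ c ∈ b, lh f A a u t c := by
    have h1 : ∑ j ∈ s, lh f A a u t (Sum.inl j) =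
        ∑ c ∈ s.map Function.Embedding.inl, lh f A a u t c := by
      rw [Finset.sum_map]
      rfl
    rw [h1]
    exact Finset.sum_le_sum_of_subset_of_nonneg hsub hrest
  -- the other hyperplanes
  have hother : ∀ j, j ∉ s → lh f A a u t (Sum.inl j) ≤ Real.log (f (mn u Iv)) -
      Real.log (f (eval u (Matrix.of fun l => ah a (J l)).det)) + Real.log c1 := by
    intro j hj
    have hcn : s.card = n := by
      have h3 : s.card < q := by
        have := Finset.card_lt_univ_of_notMem hj
        rwa [Fintype.card_fin] at this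
      rw [hscard] at h3 ⊢
      rcases min_choice q n with h | h
      · rw [h] at h3; exact absurd h3 (lt_irrefl _)
      · exact h
    have hbeq : s.map Function.Embedding.inl = b := by
      refine Finset.eq_of_subset_of_card_le hsub ?_
      rw [hbcard, Finset.card_map, hcn]
    have hexch : ∀ j' ∈ s, lh f A a u t (Sum.inl j) ≤ lh f A a u t (Sum.inl j') := by
      intro j' hj'
      have h1 := hsmax (insert j (s.erase j')) (by
        rw [Finset.mem_powersetCard]
        refine ⟨Finset.subset_univ _, ?_⟩
        rw [Finset.card_insert_of_notMem fun h => hj (Finset.mem_of_mem_erase h),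
          Finset.card_erase_of_mem hj', ← hscard]
        have : 0 < s.card := Finset.card_pos.2 ⟨j', hj'⟩
        omega)
      rw [Finset.sum_insert fun h => hj (Finset.mem_of_mem_erase h)] at h1
      have h2 := Finset.add_sum_erase s (fun j => lh f A a u t (Sum.inl j)) hj'
      linarith
    obtain ⟨i0, hi0⟩ := exists_sn f t
    set δ : ℝ := Real.exp (-lh f A a u t (Sum.inl j)) with hδ
    have h1 := cram f (Matrix.of fun l i => eval u (ah a (J l) i))
      (fun l => nA f (Ah n A (J l)) u) (fun l => nA_pos f (hAh _) hu) c0 hc01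
      (fun l i => hbd u hu (J l) i) t i0 (by rw [hi0]; exact hT) δ (Real.exp_pos _).le (by
        intro l
        have h2 : J l ∈ b := (e l).2
        rw [← hbeq, Finset.mem_map] at h2
        obtain ⟨j', hj', h3⟩ := h2
        have h4 := hexch j' hj'
        have h5 : (Function.Embedding.inl : Fin q ↪ Fin q ⊕ Fin n) j' = Sum.inl j' := rfl
        rw [h5] at h3
        rw [h3] at h4
        have h6 : ∑ i, (Matrix.of fun l i => eval u (ah a (J l) i)) l i * t i =
            lv (ah a (J l)) u t := rfl
        rw [h6, hi0]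
        have h7 : f (lv (ah a (J l)) u t) = Real.exp (Real.log (f (lv (ah a (J l)) u t))) :=
          (Real.exp_log (f.pos_iff.2 (hlv _))).symm
        have h8 : nA f (Ah n A (J l)) u * sn f t * δ =
            Real.exp (Real.log (nA f (Ah n A (J l)) u) + Real.log (sn f t) -
              lh f A a u t (Sum.inl j)) := by
          rw [sub_eq_add_neg, Real.exp_add, Real.exp_add,
            Real.exp_log (nA_pos f (hAh _) hu), Real.exp_log hT]
        rw [h7, h8]
        refine Real.exp_le_exp.2 ?_
        have h9 : lh f A a u t (J l) = Real.log (nA f (Ah n A (J l)) u) + Real.log (sn f t) -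
          Real.log (f (lv (ah a (J l)) u t)) := rfl
        linarith)
    rw [← hdetev, ← hc1] at h1
    have h2 := Real.log_le_log (f.pos_iff.2 hev) h1
    rw [Real.log_mul (by positivity) (Real.exp_pos _).ne', Real.log_mul (by positivity)
      hprodpos.ne', hprod, Real.log_exp] at h2
    linarith
  -- the end
  have hsplit : ∑ j, lh f A a u t (Sum.inl j) = ∑ j ∈ s, lh f A a u t (Sum.inl j) +
      ∑ j ∈ sᶜ, lh f A a u t (Sum.inl j) := (Finset.sum_add_sum_compl s _).symm
  have hcompl : ∑ j ∈ sᶜ, lh f A a u t (Sum.inl j) ≤ q * (Real.log (f (mn u Iv)) -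
      Real.log (f (eval u (Matrix.of fun l => ah a (J l)).det)) + Real.log c1) := by
    refine (Finset.sum_le_sum fun j hj => hother j (Finset.mem_compl.1 hj)).trans ?_
    rw [Finset.sum_const, nsmul_eq_mul]
    refine mul_le_mul_of_nonneg_right ?_ hbr
    have : sᶜ.card ≤ q := by
      have := Finset.card_le_univ sᶜ
      rwa [Fintype.card_fin] at this
    exact_mod_cast this
  rw [hsplit, hsum1]
  linarith

end Pool.Agent.N63.MT
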