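import Mathlib
import Pool.Agent.N63.MT.Core2
import Pool.Agent.N63.MT.Pos2
import Pool.Agent.R405.QS3

set_option autoImplicit false
set_option linter.unusedSectionVars false

/-!
The inequality for moving hyperplanes in general position.
-/

namespace Pool.Agent.N63.MT

open Finset MvPolynomial Matrix NumberField Height
open Pool.Agent.W180.OP (Pl av wt nrm wt_nonneg)
open Pool.Agent.R405 (Good exists_good)

section

variable {k K : Type} [Field k] [NumberField k] [Field K] [NumberField K] [Algebra k K]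
  {r n q : ℕ}

theorem a_ne (hn : 0 < n) (A : Fin q → Finset (Fin r →₀ ℕ))
    (hAne : ∀ j, (A j).Nonempty) (a : Fin q → Fin n → MvPolynomial (Fin r) K)
    (hgp : GenPos A a) (j : Fin q) : a j ≠ 0 := by
  obtain ⟨ω, m, hlead, -⟩ := perturb A hAne 0
  have h1 := hgp ω m hlead {j} (by rw [Finset.card_singleton]; exact hn)
  have h2 := h1.ne_zero (i := j) (by simp)
  intro h0
  apply h2
  funext i
  rw [h0]
  simp

theorem pos_core [IsGalois ℚ K] (hi : ∃ z : K, z ^ 2 = -1) (S : Finset (Pl k))
    (f : Pl k → AbsoluteValue K ℝ) (hf : ∀ v, Good v (f v)) (hn : 0 < n)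
    (A : Fin q → Finset (Fin r →₀ ℕ))
    (hAne : ∀ j, (A j).Nonempty) (a : Fin q → Fin n → MvPolynomial (Fin r) K)
    (hA : ∀ j i, (a j i).support ⊆ A j) (hgp : GenPos A a) (ε : ℝ) (hε : 0 < ε) :
    ∃ (Z : Finset (Fin n → MvPolynomial (Fin r) K)) (C1 C2 : ℝ), 0 ≤ C1 ∧ 0 ≤ C2 ∧
      (∀ P ∈ Z, P ≠ 0) ∧
      ∀ (u : Fin r → k) (t : Fin n → k), (∀ i, u i ≠ 0) →
        (∀ P ∈ Z, lv P (ku K u) (ku K t) ≠ 0) →
        (∀ j, lv (a j) (ku K u) (ku K t) ≠ 0) ∧
        ∑ v ∈ S, wt v * ∑ j, lh (f v) A a (ku K u) (ku K t) (Sum.inl j) ≤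
          (n + ε) * logHeight t + ε * ∑ i, logHeight₁ (u i) + C1 * ∑ i, ex S (u i) + C2 := by
  classical
  let i0 : Fin n := ⟨0, hn⟩
  obtain ⟨Z1, C1, C2, hC1, hC2, hZ1, hcore⟩ := core hi S f hf hn (ah a) (ε / 2) (half_pos hε)
  set ε' : ℝ := ε / (2 * (q + 1)) with hε'
  have hε'0 : 0 < ε' := by positivity
  obtain ⟨Z2, D1, D2, hD1, hD2, hZ2, hsu⟩ := su hi S f (fun v _ => hf v)
    (β := {J : Fin n → Fin q ⊕ Fin n // (Matrix.of fun l => ah a (J l)).det ≠ 0})
    (fun J => (Matrix.of fun l => ah a (J.1 l)).det) (fun J => J.2) ε' hε'0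
  have hpc := fun v : Pl k => place_choice (f v) hn A hAne a hA hgp
  choose Cp hCp0 hCp using hpc
  have hah : ∀ c, ah a c ≠ 0 := by
    rintro (j | i)
    · exact a_ne hn A hAne a hgp j
    · intro h0
      have := congrFun h0 i
      change (Pi.single i 1 : Fin n → MvPolynomial (Fin r) K) i = 0 at this
      rw [Pi.single_eq_same] at this
      exact one_ne_zero this
  refine ⟨Z1 ∪ Z2.image (fun P => Pi.single i0 P), C1 + q * D1,
    C2 + q * D2 + q * ∑ v ∈ S, wt v * Cp v, by positivity, ?_, ?_, ?_⟩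
  · have : 0 ≤ ∑ v ∈ S, wt v * Cp v :=
      Finset.sum_nonneg fun v _ => mul_nonneg (wt_nonneg v) (hCp0 v)
    positivity
  · intro P hP
    rcases Finset.mem_union.1 hP with hP | hP
    · exact hZ1 P hP
    · obtain ⟨P', hP', rfl⟩ := Finset.mem_image.1 hP
      intro h0
      have := congrFun h0 i0
      rw [Pi.single_eq_same] at this
      exact hZ2 P' hP' this
  · intro u t hu hZ
    obtain ⟨h1, h2, h3⟩ := hcore u t hu fun P hP => hZ P (Finset.mem_union_left _ hP)
    have hlv : ∀ c, lv (ah a c) (ku K u) (ku K t) ≠ 0 := fun c => h1 c (hah c)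
    have hZu' : ∀ P ∈ Z2, eval (ku K u) P ≠ 0 := by
      intro P hP h0
      refine hZ (Pi.single i0 P) (Finset.mem_union_right _ (Finset.mem_image_of_mem _ hP)) ?_
      unfold lv
      refine Finset.sum_eq_zero fun i' _ => ?_
      by_cases h : i' = i0
      · rw [h, Pi.single_eq_same, h0, zero_mul]
      · rw [Pi.single_eq_of_ne h, map_zero, zero_mul]
    obtain ⟨-, hsu'⟩ := hsu u hu hZu'
    have hkt : ∀ i, ku K t i ≠ 0 := by
      intro i h0
      apply hlv (Sum.inr i)
      unfold lv
      refine Finset.sum_eq_zero fun i' _ => ?_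
      show eval _ ((Pi.single i 1 : Fin n → MvPolynomial (Fin r) K) i') * _ = 0
      by_cases h : i' = i
      · rw [h, h0, mul_zero]
      · rw [Pi.single_eq_of_ne h, map_zero, zero_mul]
    have hch := fun v : Pl k => hCp v (ku K u) (ku K t) (ku_ne hu) hkt hlv h2
    choose J Iv hIv hbr hle using hch
    refine ⟨fun j => hlv (Sum.inl j), ?_⟩
    have hdetJ : ∀ v, (Matrix.of fun l => ah a (J v l)).det ≠ 0 := by
      intro v h0
      have := hIv v
      rw [h0, MvPolynomial.support_zero] at this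
      exact Finset.notMem_empty _ this
    have h4 := h3 J Iv hIv
    have h5 := hsu' (fun v => ⟨J v, hdetJ v⟩) Iv hIv
    have hsn : ∀ v, sn (f v) (ku K t) = sn (av v) t := by
      intro v
      unfold sn ku
      simp only [(hf v).ext]
    have hmn : ∀ v I, f v (mn (ku K u) I) = av v (mn u I) := by
      intro v I
      rw [mn_ku, (hf v).ext]
    have h6 : ∑ v ∈ S, wt v * ∑ j, lh (f v) A a (ku K u) (ku K t) (Sum.inl j) ≤
        ∑ v ∈ S, wt v * (∑ j, (Real.log (sn (av v) t) -
            Real.log (f v (lv (ah a (J v j)) (ku K u) (ku K t)))) +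
            Real.log (av v (mn u (Iv v)))) +
        q * ∑ v ∈ S, wt v * (Real.log (av v (mn u (Iv v))) -
          Real.log (f v (eval (ku K u) (Matrix.of fun l => ah a (J v l)).det))) +
        q * ∑ v ∈ S, wt v * Cp v := by
      rw [Finset.mul_sum, Finset.mul_sum, ← Finset.sum_add_distrib, ← Finset.sum_add_distrib]
      refine Finset.sum_le_sum fun v _ => ?_
      have h7 := mul_le_mul_of_nonneg_left (hle v) (wt_nonneg v)
      simp only [hsn, hmn] at h7
      refine h7.trans (le_of_eq ?_)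
      ring
    have hH0 : 0 ≤ ∑ i, logHeight₁ (u i) := Finset.sum_nonneg fun i _ => zero_le_logHeight₁ _
    have hht : 0 ≤ logHeight t := logHeight_nonneg t
    have hq0 : (0 : ℝ) ≤ q := Nat.cast_nonneg _
    have h8 := mul_le_mul_of_nonneg_left h5 hq0
    have hqε : q * ε' ≤ ε / 2 := by
      rw [hε', ← mul_div_assoc, div_le_div_iff₀ (by positivity) (by norm_num)]
      nlinarith
    have h9 : q * ε' * ∑ i, logHeight₁ (u i) ≤ ε / 2 * ∑ i, logHeight₁ (u i) :=
      mul_le_mul_of_nonneg_right hqε hH0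
    have h10 : (n + ε / 2) * logHeight t ≤ (n + ε) * logHeight t :=
      mul_le_mul_of_nonneg_right (by linarith) hht
    linarith

end

section

variable {k M : Type} [Field k] [Field M] [Algebra k M] {r n : ℕ}

/-- linear independence over an extension -/
theorem li_ext {ι : Type} [Finite ι] (x : ι → Fin n → k) (hx : LinearIndependent k x) :
    LinearIndependent M (fun (j : ι) (i : Fin n) => algebraMap k M (x j i)) := by
  classical
  have : Fintype ι := Fintype.ofFinite ι
  rw [Fintype.linearIndependent_iff] at hx ⊢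
  intro c hc j
  let bs := Module.Basis.ofVectorSpace k M
  refine (bs.forall_coord_eq_zero_iff).1 fun b => ?_
  refine hx (fun j => bs.coord b (c j)) ?_ j
  funext i
  have h1 := congrArg (bs.coord b) (congrFun hc i)
  rw [Finset.sum_apply] at h1
  simp only [Pi.smul_apply, smul_eq_mul, Pi.zero_apply, map_sum, map_zero] at h1
  rw [Finset.sum_apply]
  simp only [Pi.smul_apply, smul_eq_mul, Pi.zero_apply]
  rw [← h1]
  refine Finset.sum_congr rfl fun j _ => ?_
  rw [mul_comm (c j), ← Algebra.smul_def, map_smul, smul_eq_mul, mul_comm]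

/-- from moving hyperplanes over an extension to moving hyperplanes over the ground field -/
theorem descend (P : Fin n → MvPolynomial (Fin r) M) (hP : P ≠ 0) :
    ∃ P' : Fin n → MvPolynomial (Fin r) k, P' ≠ 0 ∧ ∀ (u : Fin r → k) (t : Fin n → k),
      lv P' u t ≠ 0 → lv P (ku M u) (ku M t) ≠ 0 := by
  classical
  obtain ⟨i, hi⟩ := Function.ne_iff.1 hP
  obtain ⟨I, hI⟩ : ∃ I, coeff I (P i) ≠ 0 := by
    by_contra hcon
    push Not at hcon
    exact hi (MvPolynomial.ext _ _ fun I => by rw [hcon I, Pi.zero_apply, coeff_zero])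
  let bs := Module.Basis.ofVectorSpace k M
  obtain ⟨b, hb⟩ : ∃ b, bs.coord b (coeff I (P i)) ≠ 0 := by
    by_contra hcon
    push Not at hcon
    exact hI ((bs.forall_coord_eq_zero_iff).1 hcon)
  set φ : M →ₗ[k] k := bs.coord b with hφ
  refine ⟨fun i => ∑ I ∈ (P i).support, monomial I (φ (coeff I (P i))), ?_, ?_⟩
  · intro h0
    apply hb
    have h1 := congrArg (coeff I) (congrFun h0 i)
    rw [MvPolynomial.coeff_sum, Pi.zero_apply, coeff_zero] at h1
    simp only [MvPolynomial.coeff_monomial] at h1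
    rw [Finset.sum_ite_eq', if_pos (MvPolynomial.mem_support_iff.2 hI)] at h1
    exact h1
  · intro u t h h0
    apply h
    have h1 : φ (lv P (ku M u) (ku M t)) = 0 := by rw [h0, map_zero]
    rw [← h1]
    unfold lv
    rw [map_sum]
    refine Finset.sum_congr rfl fun i _ => ?_
    rw [map_sum, MvPolynomial.eval_eq', Finset.sum_mul, Finset.sum_mul, map_sum]
    refine Finset.sum_congr rfl fun I _ => ?_
    have h2 : (coeff I (P i) * ∏ j, ku M u j ^ I j) * ku M t i =
        (mn u I * t i) • coeff I (P i) := by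
      have h3 : ∏ j, ku M u j ^ I j = algebraMap k M (mn u I) := mn_map (algebraMap k M) u I
      rw [h3, Algebra.smul_def, map_mul]
      simp only [ku]
      ring
    rw [h2, map_smul, eval_mono, smul_eq_mul]
    ring

end

section

variable {k K : Type} [Field k] [NumberField k] [Field K] [NumberField K] [Algebra k K]
  {r n q : ℕ}

/-- the inequality over arbitrary number fields -/
theorem pos_main (S : Finset (Pl k)) (w : Pl k → Pl K) (τ : Pl k → ℝ) (hτ : ∀ v ∈ S, 0 < τ v)
    (hw : ∀ v ∈ S, ∀ x : k, av (w v) (algebraMap k K x) ^ τ v = av v x) (hn : 0 < n)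
    (A : Fin q → Finset (Fin r →₀ ℕ))
    (hAne : ∀ j, (A j).Nonempty) (a : Fin q → Fin n → MvPolynomial (Fin r) K)
    (hA : ∀ j i, (a j i).support ⊆ A j) (hgp : GenPos A a) (ε : ℝ) (hε : 0 < ε) :
    ∃ (Z : Finset (Fin n → MvPolynomial (Fin r) k)) (C1 C2 : ℝ), 0 ≤ C1 ∧
      (∀ P ∈ Z, P ≠ 0) ∧
      ∀ (u : Fin r → k) (t : Fin n → k), (∀ i, u i ≠ 0) →
        (∀ P ∈ Z, lv P u t ≠ 0) →
        (∀ j, lv (a j) (ku K u) (ku K t) ≠ 0) ∧
        ∑ v ∈ S, wt v * ∑ j, τ v * lh (av (w v)) A a (ku K u) (ku K t) (Sum.inl j) ≤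
          (n + ε) * logHeight t + ε * ∑ i, logHeight₁ (u i) + C1 * ∑ i, ex S (u i) + C2 := by
  classical
  obtain ⟨M, hM1, hM2, hi, ⟨φ⟩⟩ := Pool.Agent.R405.exists_big K
  have : NumberField M := ⟨⟩
  let _ : Algebra K M := φ.toAlgebra
  let _ : Algebra k M := (φ.comp (algebraMap k K)).toAlgebra
  have : IsScalarTower k K M := IsScalarTower.of_algebraMap_eq fun _ => rfl
  -- the places
  have hf : ∀ v : Pl k, ∃ g : AbsoluteValue M ℝ, Good v g ∧
      (v ∈ S → ∀ y : K, g (algebraMap K M y) = av (w v) y ^ τ v) := by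
    intro v
    by_cases hv : v ∈ S
    · obtain ⟨g, h1, h2⟩ := Pool.Agent.R405.QS.ext_place (M := M) v (w v) (τ v) (hτ v hv)
        (hw v hv)
      exact ⟨g, h1, fun _ => h2⟩
    · obtain ⟨g, h1⟩ := exists_good (K := M) v
      exact ⟨g, h1, fun h => absurd h hv⟩
  choose f hf1 hf2 using hf
  -- the polynomials
  let aM : Fin q → Fin n → MvPolynomial (Fin r) M := fun j i => map (algebraMap K M) (a j i)
  have hAM : ∀ j i, (aM j i).support ⊆ A j := fun j i =>
    (MvPolynomial.support_map_subset _ _).trans (hA j i)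
  have hgpM : GenPos A aM := by
    intro ω m hm s hs
    have h1 := hgp ω m hm s hs
    have h2 : (fun j i => coeff (m j) (aM j i)) =
        fun j i => algebraMap K M (coeff (m j) (a j i)) := by
      funext j i
      exact MvPolynomial.coeff_map _ _ _
    rw [h2]
    have h3 : LinearIndependent K (fun (x : (s : Set (Fin q))) (i : Fin n) =>
      coeff (m x) (a x i)) := h1
    show LinearIndependent M (fun (x : (s : Set (Fin q))) (i : Fin n) =>
      algebraMap K M (coeff (m x) (a x i)))
    exact li_ext _ h3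
  obtain ⟨Z, C1, C2, hC1, -, hZ, hmain⟩ := pos_core (k := k) hi S f hf1 hn A hAne aM hAM hgpM ε hε
  have hdes := fun P : {P // P ∈ Z} => descend (k := k) P.1 (hZ P.1 P.2)
  choose Pd hPd1 hPd2 using hdes
  refine ⟨Finset.univ.image Pd, C1, C2, hC1, ?_, ?_⟩
  · intro P hP
    obtain ⟨P', -, rfl⟩ := Finset.mem_image.1 hP
    exact hPd1 P'
  · intro u t hu hZu
    have h1 := hmain u t hu fun P hP => hPd2 ⟨P, hP⟩ u t
      (hZu _ (Finset.mem_image_of_mem _ (Finset.mem_univ _)))
    have hkuM : ∀ {m : ℕ} (x : Fin m → k), ku M x = fun i => algebraMap K M (ku K x i) :=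
      fun x => rfl
    have hlvM : ∀ j, lv (aM j) (ku M u) (ku M t) =
        algebraMap K M (lv (a j) (ku K u) (ku K t)) := by
      intro j
      unfold lv
      rw [map_sum]
      refine Finset.sum_congr rfl fun i _ => ?_
      rw [map_mul]
      congr 1
      show eval (ku M u) (map (algebraMap K M) (a j i)) = _
      rw [MvPolynomial.eval_map, hkuM]
      exact (MvPolynomial.eval₂_comp_left (algebraMap K M) (RingHom.id K) (ku K u) (a j i)).symm
    refine ⟨fun j h0 => h1.1 j (by rw [hlvM, h0, map_zero]), ?_⟩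
    refine le_trans (le_of_eq ?_) h1.2
    refine Finset.sum_congr rfl fun v hv => ?_
    congr 1
    refine Finset.sum_congr rfl fun j _ => ?_
    have hg := hf2 v hv
    have hrp : ∀ {x : ℝ}, 0 ≤ x → Real.log (x ^ τ v) = τ v * Real.log x := by
      intro x hx
      rcases eq_or_lt_of_le hx with h | h
      · rw [← h, Real.zero_rpow (hτ v hv).ne', Real.log_zero, mul_zero]
      · exact Real.log_rpow h _
    have hsn : sn (f v) (ku M t) = sn (av (w v)) (ku K t) ^ τ v := by
      have hne : Nonempty (Fin n) := ⟨⟨0, hn⟩⟩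
      unfold sn
      rw [hkuM]
      simp only [hg]
      apply le_antisymm
      · refine ciSup_le fun i => ?_
        exact Real.rpow_le_rpow ((av (w v)).nonneg _) (le_sn (av (w v)) (ku K t) i)
          (hτ v hv).le
      · obtain ⟨i, hi'⟩ := exists_sn (av (w v)) (ku K t)
        unfold sn at hi'
        rw [← hi']
        exact le_ciSup (f := fun i => av (w v) (ku K t i) ^ τ v) (Set.finite_range _).bddAbove i
    have hnA : nA (f v) (A j) (ku M u) = nA (av (w v)) (A j) (ku K u) ^ τ v := by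
      have hne : Nonempty {I // I ∈ A j} := by
        obtain ⟨I, hI⟩ := hAne j
        exact ⟨⟨I, hI⟩⟩
      have hmnM : ∀ I : Fin r →₀ ℕ, mn (ku M u) I = algebraMap K M (mn (ku K u) I) := fun I =>
        mn_map (algebraMap K M) (ku K u) I
      unfold nA
      simp only [hmnM, hg]
      apply le_antisymm
      · refine ciSup_le fun I => ?_
        exact Real.rpow_le_rpow ((av (w v)).nonneg _) (le_nA (av (w v)) (ku K u) I.2) (hτ v hv).le
      · obtain ⟨I, hI⟩ := exists_eq_ciSup_of_finite
          (f := fun I : {I // I ∈ A j} => av (w v) (mn (ku K u) I.1))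
        rw [← hI]
        exact le_ciSup (f := fun I : {I // I ∈ A j} => av (w v) (mn (ku K u) I.1) ^ τ v)
          (Set.finite_range _).bddAbove I
    have hn1 : 0 ≤ nA (av (w v)) (A j) (ku K u) :=
      (nA_pos (av (w v)) (hAne j) (ku_ne hu)).le
    have hn2 : 0 ≤ sn (av (w v)) (ku K t) := Real.iSup_nonneg fun _ => (av (w v)).nonneg _
    show τ v * (Real.log (nA (av (w v)) (A j) (ku K u)) + Real.log (sn (av (w v)) (ku K t)) -
      Real.log (av (w v) (lv (a j) (ku K u) (ku K t)))) =
      Real.log (nA (f v) (A j) (ku M u)) + Real.log (sn (f v) (ku M t)) -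
      Real.log (f v (lv (aM j) (ku M u) (ku M t)))
    rw [hsn, hnA, hlvM, hg, hrp hn1, hrp hn2, hrp ((av (w v)).nonneg _)]
    ring

end

end Pool.Agent.N63.MT
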