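import Mathlib
import Pool.Agent.N63.MT.Main

set_option autoImplicit false
set_option linter.unusedSectionVars false

/-!
The inequality for divisors with components of degree at most one on the fibres.
-/

namespace Pool.Agent.N63.MT

open Finset MvPolynomial Matrix NumberField Height
open Pool.Agent.W180.OP (Pl av wt nrm wt_nonneg)
open Pool.Agent.R405 (Good exists_good)

section

variable {k K : Type} [Field k] [NumberField k] [Field K] [NumberField K] [Algebra k K]
  {r n q p : ℕ}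

/-- the coefficients of `b l` at the vertices of `B l` are not zero -/
def Vtx (B : Fin p → Finset (Fin r →₀ ℕ)) (b : Fin p → MvPolynomial (Fin r) K) : Prop :=
  ∀ (ω : Fin r → ℝ) (m : Fin p → Fin r →₀ ℕ), IsLead ω B m → ∀ l, coeff (m l) (b l) ≠ 0

theorem vert_core [IsGalois ℚ K] (hi : ∃ z : K, z ^ 2 = -1) (S : Finset (Pl k))
    (f : Pl k → AbsoluteValue K ℝ) (hf : ∀ v, Good v (f v))
    (B : Fin p → Finset (Fin r →₀ ℕ))
    (hBne : ∀ l, (B l).Nonempty) (b : Fin p → MvPolynomial (Fin r) K)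
    (hvx : Vtx B b) (ε : ℝ) (hε : 0 < ε) :
    ∃ (Z : Finset (MvPolynomial (Fin r) K)) (C1 C2 : ℝ), 0 ≤ C1 ∧ 0 ≤ C2 ∧
      (∀ P ∈ Z, P ≠ 0) ∧
      ∀ (u : Fin r → k), (∀ i, u i ≠ 0) → (∀ P ∈ Z, eval (ku K u) P ≠ 0) →
        (∀ l, eval (ku K u) (b l) ≠ 0) ∧
        ∑ v ∈ S, wt v * ∑ l, (Real.log (nA (f v) (B l) (ku K u)) -
          Real.log (f v (eval (ku K u) (b l)))) ≤
          ε * ∑ i, logHeight₁ (u i) + C1 * ∑ i, ex S (u i) + C2 := by
  classical
  have hb0 : ∀ l, b l ≠ 0 := by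
    intro l h0
    obtain ⟨ω, m, hlead, -⟩ := perturb B hBne 0
    exact hvx ω m hlead l (by rw [h0, coeff_zero])
  set ε' : ℝ := ε / (p + 1) with hε'
  have hε'0 : 0 < ε' := by positivity
  obtain ⟨Z, D1, D2, hD1, hD2, hZ, hsu⟩ := su hi S f (fun v _ => hf v) b hb0 ε' hε'0
  refine ⟨Z, p * D1, p * D2, by positivity, by positivity, hZ, fun u hu hZu => ?_⟩
  obtain ⟨h1, h2⟩ := hsu u hu hZu
  refine ⟨h1, ?_⟩
  have hper := fun v : Pl k => perturb B hBne (fun i => Real.log (f v (ku K u i)))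
  choose ω m hlead hmax using hper
  have h3 : ∀ l, ∑ v ∈ S, wt v * (Real.log (nA (f v) (B l) (ku K u)) -
      Real.log (f v (eval (ku K u) (b l)))) ≤
      ε' * ∑ i, logHeight₁ (u i) + D1 * ∑ i, ex S (u i) + D2 := by
    intro l
    have h4 := h2 (fun _ => l) (fun v => m v l) (fun v =>
      MvPolynomial.mem_support_iff.2 (hvx (ω v) (m v) (hlead v) l))
    refine le_trans (le_of_eq ?_) h4
    refine Finset.sum_congr rfl fun v _ => ?_
    rw [nA_eq (f v) (ku_ne hu) (hlead v l).1 (hmax v l), mn_ku, (hf v).ext]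
  have h4 : ∑ v ∈ S, wt v * ∑ l, (Real.log (nA (f v) (B l) (ku K u)) -
          Real.log (f v (eval (ku K u) (b l)))) =
      ∑ l, ∑ v ∈ S, wt v * (Real.log (nA (f v) (B l) (ku K u)) -
      Real.log (f v (eval (ku K u) (b l)))) := by
    rw [Finset.sum_comm]
    exact Finset.sum_congr rfl fun v _ => Finset.mul_sum _ _ _
  rw [h4]
  refine (Finset.sum_le_sum fun l _ => h3 l).trans ?_
  rw [Finset.sum_const, Finset.card_univ, Fintype.card_fin, nsmul_eq_mul]
  have hH0 : 0 ≤ ∑ i, logHeight₁ (u i) := Finset.sum_nonneg fun i _ => zero_le_logHeight₁ _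
  have hpε : p * ε' ≤ ε := by
    rw [hε', ← mul_div_assoc, div_le_iff₀ (by positivity)]
    have : (0 : ℝ) ≤ p := Nat.cast_nonneg _
    nlinarith
  have h9 : p * ε' * ∑ i, logHeight₁ (u i) ≤ ε * ∑ i, logHeight₁ (u i) :=
    mul_le_mul_of_nonneg_right hpε hH0
  linarith

/-- both kinds of components -/
theorem full_core [IsGalois ℚ K] (hi : ∃ z : K, z ^ 2 = -1) (S : Finset (Pl k))
    (f : Pl k → AbsoluteValue K ℝ) (hf : ∀ v, Good v (f v)) (hn : 0 < n)
    (A : Fin q → Finset (Fin r →₀ ℕ))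
    (hAne : ∀ j, (A j).Nonempty) (a : Fin q → Fin n → MvPolynomial (Fin r) K)
    (hA : ∀ j i, (a j i).support ⊆ A j) (hgp : GenPos A a)
    (B : Fin p → Finset (Fin r →₀ ℕ))
    (hBne : ∀ l, (B l).Nonempty) (b : Fin p → MvPolynomial (Fin r) K)
    (hvx : Vtx B b) (ε : ℝ) (hε : 0 < ε) :
    ∃ (Z : Finset (Fin n → MvPolynomial (Fin r) K)) (C1 C2 : ℝ), 0 ≤ C1 ∧
      (∀ P ∈ Z, P ≠ 0) ∧
      ∀ (u : Fin r → k) (t : Fin n → k), (∀ i, u i ≠ 0) →
        (∀ P ∈ Z, lv P (ku K u) (ku K t) ≠ 0) →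
        (∀ j, lv (a j) (ku K u) (ku K t) ≠ 0) ∧ (∀ l, eval (ku K u) (b l) ≠ 0) ∧
        ∑ v ∈ S, wt v * (∑ j, lh (f v) A a (ku K u) (ku K t) (Sum.inl j) +
          ∑ l, (Real.log (nA (f v) (B l) (ku K u)) - Real.log (f v (eval (ku K u) (b l))))) ≤
          n * logHeight t + ε * (logHeight t + ∑ i, logHeight₁ (u i)) +
            C1 * ∑ i, ex S (u i) + C2 := by
  classical
  let i0 : Fin n := ⟨0, hn⟩
  obtain ⟨Z1, C1, C2, hC1, hC2, hZ1, h1⟩ := pos_core hi S f hf hn A hAne a hA hgp (ε / 2)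
    (half_pos hε)
  obtain ⟨Z2, D1, D2, hD1, hD2, hZ2, h2⟩ := vert_core hi S f hf B hBne b hvx (ε / 2)
    (half_pos hε)
  refine ⟨Z1 ∪ Z2.image (fun P => Pi.single i0 P), C1 + D1, C2 + D2, by positivity, ?_, ?_⟩
  · intro P hP
    rcases Finset.mem_union.1 hP with hP | hP
    · exact hZ1 P hP
    · obtain ⟨P', hP', rfl⟩ := Finset.mem_image.1 hP
      intro h0
      have := congrFun h0 i0
      rw [Pi.single_eq_same] at this
      exact hZ2 P' hP' this
  · intro u t hu hZ
    obtain ⟨h3, h4⟩ := h1 u t hu fun P hP => hZ P (Finset.mem_union_left _ hP)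
    have hZu' : ∀ P ∈ Z2, eval (ku K u) P ≠ 0 := by
      intro P hP h0
      refine hZ (Pi.single i0 P) (Finset.mem_union_right _ (Finset.mem_image_of_mem _ hP)) ?_
      unfold lv
      refine Finset.sum_eq_zero fun i' _ => ?_
      by_cases h : i' = i0
      · rw [h, Pi.single_eq_same, h0, zero_mul]
      · rw [Pi.single_eq_of_ne h, map_zero, zero_mul]
    obtain ⟨h5, h6⟩ := h2 u hu hZu'
    refine ⟨h3, h5, ?_⟩
    simp only [mul_add]
    rw [Finset.sum_add_distrib]
    have hht : 0 ≤ logHeight t := logHeight_nonneg t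
    have h7 : ε / 2 * logHeight t ≤ ε * logHeight t :=
      mul_le_mul_of_nonneg_right (by linarith) hht
    linarith

/-- the inequality over arbitrary number fields -/
theorem full_main (S : Finset (Pl k)) (w : Pl k → Pl K) (τ : Pl k → ℝ) (hτ : ∀ v ∈ S, 0 < τ v)
    (hw : ∀ v ∈ S, ∀ x : k, av (w v) (algebraMap k K x) ^ τ v = av v x) (hn : 0 < n)
    (A : Fin q → Finset (Fin r →₀ ℕ))
    (hAne : ∀ j, (A j).Nonempty) (a : Fin q → Fin n → MvPolynomial (Fin r) K)
    (hA : ∀ j i, (a j i).support ⊆ A j) (hgp : GenPos A a)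
    (B : Fin p → Finset (Fin r →₀ ℕ))
    (hBne : ∀ l, (B l).Nonempty) (b : Fin p → MvPolynomial (Fin r) K)
    (hvx : Vtx B b) (ε : ℝ) (hε : 0 < ε) :
    ∃ (Z : Finset (Fin n → MvPolynomial (Fin r) k)) (C1 C2 : ℝ), 0 ≤ C1 ∧
      (∀ P ∈ Z, P ≠ 0) ∧
      ∀ (u : Fin r → k) (t : Fin n → k), (∀ i, u i ≠ 0) →
        (∀ P ∈ Z, lv P u t ≠ 0) →
        (∀ j, lv (a j) (ku K u) (ku K t) ≠ 0) ∧ (∀ l, eval (ku K u) (b l) ≠ 0) ∧
        ∑ v ∈ S, wt v * τ v * (∑ j, lh (av (w v)) A a (ku K u) (ku K t) (Sum.inl j) +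
          ∑ l, (Real.log (nA (av (w v)) (B l) (ku K u)) -
            Real.log (av (w v) (eval (ku K u) (b l))))) ≤
          n * logHeight t + ε * (logHeight t + ∑ i, logHeight₁ (u i)) +
            C1 * ∑ i, ex S (u i) + C2 := by
  classical
  obtain ⟨M, hM1, hM2, hi, ⟨φ⟩⟩ := Pool.Agent.R405.exists_big K
  have : NumberField M := ⟨⟩
  let _ : Algebra K M := φ.toAlgebra
  let _ : Algebra k M := (φ.comp (algebraMap k K)).toAlgebra
  have : IsScalarTower k K M := IsScalarTower.of_algebraMap_eq fun _ => rfl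
  -- the places
  have hf : ∀ v : Pl k, ∃ g : AbsoluteValue M ℝ, Good v g ∧
      (v ∈ S → ∀ y : K, g (algebraMap K M y) = av (w v) y ^ τ v) := by
    intro v
    by_cases hv : v ∈ S
    · obtain ⟨g, h1, h2⟩ := Pool.Agent.R405.QS.ext_place (M := M) v (w v) (τ v) (hτ v hv)
        (hw v hv)
      exact ⟨g, h1, fun _ => h2⟩
    · obtain ⟨g, h1⟩ := exists_good (K := M) v
      exact ⟨g, h1, fun h => absurd h hv⟩
  choose f hf1 hf2 using hf
  -- the polynomials
  let aM : Fin q → Fin n → MvPolynomial (Fin r) M := fun j i => map (algebraMap K M) (a j i)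
  let bM : Fin p → MvPolynomial (Fin r) M := fun l => map (algebraMap K M) (b l)
  have hAM : ∀ j i, (aM j i).support ⊆ A j := fun j i =>
    (MvPolynomial.support_map_subset _ _).trans (hA j i)
  have hgpM : GenPos A aM := by
    intro ω m hm s hs
    have h1 := hgp ω m hm s hs
    have h2 : (fun j i => coeff (m j) (aM j i)) =
        fun j i => algebraMap K M (coeff (m j) (a j i)) := by
      funext j i
      exact MvPolynomial.coeff_map _ _ _
    rw [h2]
    have h3 : LinearIndependent K (fun (x : (s : Set (Fin q))) (i : Fin n) =>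
      coeff (m x) (a x i)) := h1
    show LinearIndependent M (fun (x : (s : Set (Fin q))) (i : Fin n) =>
      algebraMap K M (coeff (m x) (a x i)))
    exact li_ext _ h3
  have hvxM : Vtx B bM := by
    intro ω m hm l h0
    refine hvx ω m hm l ?_
    have h1 : coeff (m l) (bM l) = algebraMap K M (coeff (m l) (b l)) :=
      MvPolynomial.coeff_map _ _ _
    rw [h1] at h0
    exact (map_eq_zero _).1 h0
  obtain ⟨Z, C1, C2, hC1, hZ, hmain⟩ := full_core (k := k) hi S f hf1 hn A hAne aM hAM hgpM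
    B hBne bM hvxM ε hε
  have hdes := fun P : {P // P ∈ Z} => descend (k := k) P.1 (hZ P.1 P.2)
  choose Pd hPd1 hPd2 using hdes
  refine ⟨Finset.univ.image Pd, C1, C2, hC1, ?_, ?_⟩
  · intro P hP
    obtain ⟨P', -, rfl⟩ := Finset.mem_image.1 hP
    exact hPd1 P'
  · intro u t hu hZu
    obtain ⟨h1, h2, h3⟩ := hmain u t hu fun P hP => hPd2 ⟨P, hP⟩ u t
      (hZu _ (Finset.mem_image_of_mem _ (Finset.mem_univ _)))
    have hkuM : ∀ {m : ℕ} (x : Fin m → k), ku M x = fun i => algebraMap K M (ku K x i) :=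
      fun x => rfl
    have hevM : ∀ P : MvPolynomial (Fin r) K, eval (ku M u) (map (algebraMap K M) P) =
        algebraMap K M (eval (ku K u) P) := by
      intro P
      rw [MvPolynomial.eval_map, hkuM]
      exact (MvPolynomial.eval₂_comp_left (algebraMap K M) (RingHom.id K) (ku K u) P).symm
    have hlvM : ∀ j, lv (aM j) (ku M u) (ku M t) =
        algebraMap K M (lv (a j) (ku K u) (ku K t)) := by
      intro j
      unfold lv
      rw [map_sum]
      refine Finset.sum_congr rfl fun i _ => ?_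
      rw [map_mul]
      congr 1
      exact hevM (a j i)
    refine ⟨fun j h0 => h1 j (by rw [hlvM, h0, map_zero]), fun l h0 => h2 l (by
      show eval (ku M u) (map (algebraMap K M) (b l)) = 0
      rw [hevM, h0, map_zero]), ?_⟩
    refine le_trans (le_of_eq ?_) h3
    refine Finset.sum_congr rfl fun v hv => ?_
    have hg := hf2 v hv
    have hrp : ∀ {x : ℝ}, 0 ≤ x → Real.log (x ^ τ v) = τ v * Real.log x := by
      intro x hx
      rcases eq_or_lt_of_le hx with h | h
      · rw [← h, Real.zero_rpow (hτ v hv).ne', Real.log_zero, mul_zero]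
      · exact Real.log_rpow h _
    have hsn : sn (f v) (ku M t) = sn (av (w v)) (ku K t) ^ τ v := by
      have hne : Nonempty (Fin n) := ⟨⟨0, hn⟩⟩
      unfold sn
      rw [hkuM]
      simp only [hg]
      apply le_antisymm
      · refine ciSup_le fun i => ?_
        exact Real.rpow_le_rpow ((av (w v)).nonneg _) (le_sn (av (w v)) (ku K t) i)
          (hτ v hv).le
      · obtain ⟨i, hi'⟩ := exists_sn (av (w v)) (ku K t)
        unfold sn at hi'
        rw [← hi']
        exact le_ciSup (f := fun i => av (w v) (ku K t i) ^ τ v) (Set.finite_range _).bddAbove i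
    have hnA : ∀ A : Finset (Fin r →₀ ℕ), A.Nonempty →
        nA (f v) A (ku M u) = nA (av (w v)) A (ku K u) ^ τ v := by
      intro A hA
      have hne : Nonempty {I // I ∈ A} := by
        obtain ⟨I, hI⟩ := hA
        exact ⟨⟨I, hI⟩⟩
      have hmnM : ∀ I : Fin r →₀ ℕ, mn (ku M u) I = algebraMap K M (mn (ku K u) I) := fun I =>
        mn_map (algebraMap K M) (ku K u) I
      unfold nA
      simp only [hmnM, hg]
      apply le_antisymm
      · refine ciSup_le fun I => ?_
        exact Real.rpow_le_rpow ((av (w v)).nonneg _) (le_nA (av (w v)) (ku K u) I.2) (hτ v hv).le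
      · obtain ⟨I, hI⟩ := exists_eq_ciSup_of_finite
          (f := fun I : {I // I ∈ A} => av (w v) (mn (ku K u) I.1))
        rw [← hI]
        exact le_ciSup (f := fun I : {I // I ∈ A} => av (w v) (mn (ku K u) I.1) ^ τ v)
          (Set.finite_range _).bddAbove I
    have hn1 : ∀ A : Finset (Fin r →₀ ℕ), A.Nonempty → 0 ≤ nA (av (w v)) A (ku K u) :=
      fun A hA => (nA_pos (av (w v)) hA (ku_ne hu)).le
    have hn2 : 0 ≤ sn (av (w v)) (ku K t) := Real.iSup_nonneg fun _ => (av (w v)).nonneg _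
    have e1 : ∀ j, lh (f v) A aM (ku M u) (ku M t) (Sum.inl j) =
        τ v * lh (av (w v)) A a (ku K u) (ku K t) (Sum.inl j) := by
      intro j
      show Real.log (nA (f v) (A j) (ku M u)) + Real.log (sn (f v) (ku M t)) -
        Real.log (f v (lv (aM j) (ku M u) (ku M t))) =
        τ v * (Real.log (nA (av (w v)) (A j) (ku K u)) + Real.log (sn (av (w v)) (ku K t)) -
        Real.log (av (w v) (lv (a j) (ku K u) (ku K t))))
      rw [hsn, hnA _ (hAne j), hlvM, hg, hrp (hn1 _ (hAne j)), hrp hn2,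
        hrp ((av (w v)).nonneg _)]
      ring
    have e2 : ∀ l, Real.log (nA (f v) (B l) (ku M u)) -
        Real.log (f v (eval (ku M u) (bM l))) =
        τ v * (Real.log (nA (av (w v)) (B l) (ku K u)) -
          Real.log (av (w v) (eval (ku K u) (b l)))) := by
      intro l
      have : eval (ku M u) (bM l) = algebraMap K M (eval (ku K u) (b l)) := hevM (b l)
      rw [this, hnA _ (hBne l), hg, hrp (hn1 _ (hBne l)), hrp ((av (w v)).nonneg _)]
      ring
    simp only [e1, e2]
    rw [← Finset.mul_sum, ← Finset.mul_sum]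
    ring

end

section

variable {k : Type} [Field k] [NumberField k]

/-- there is no contribution outside `S` for `S`-units -/
theorem ex_unit (S : Finset (Pl k)) {x : k} (hx : x ≠ 0) (h : ∀ v, v ∉ S → av v x = 1) :
    ex S x = 0 := by
  classical
  have key : ∀ y : k, (∀ v, v ∉ S → av v y = 1) → y ≠ 0 →
      logHeight₁ y ≤ ∑ v ∈ S, wt v * lp (av v y) := by
    intro y hy hy0
    rw [NumberField.logHeight₁_eq]
    have hpl : ∀ a : ℝ, 0 ≤ a → Real.posLog a = lp a := fun a ha => Real.posLog_eq_log_max_one ha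
    have e1 : ∑ᶠ v : FinitePlace k, Real.posLog (v y) =
        ∑ v ∈ S.toRight, lp (av (Sum.inr v : Pl k) y) := by
      rw [← finsum_comp_equiv (FinitePlace.equivHeightOneSpectrum (K := k)).symm]
      rw [finsum_eq_sum_of_support_subset (s := S.toRight)]
      · refine Finset.sum_congr rfl fun v _ => ?_
        exact hpl _ ((av (Sum.inr v : Pl k)).nonneg y)
      · intro v hv
        by_contra hvS
        apply hv
        have h1 : (Sum.inr v : Pl k) ∉ S := by
          intro h2
          exact hvS (Finset.mem_coe.2 (Finset.mem_toRight.2 h2))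
        have h2 := hy _ h1
        have h3 : ((FinitePlace.equivHeightOneSpectrum (K := k)).symm v) y = 1 := h2
        show Real.posLog (((FinitePlace.equivHeightOneSpectrum (K := k)).symm v) y) = 0
        rw [h3, Real.posLog_one]
    have e2 : ∑ v : InfinitePlace k, (v.mult : ℝ) * Real.posLog (v y) =
        ∑ v ∈ S.toLeft, wt (Sum.inl v : Pl k) * lp (av (Sum.inl v : Pl k) y) := by
      symm
      have e3 : ∀ v : InfinitePlace k, wt (Sum.inl v : Pl k) * lp (av (Sum.inl v : Pl k) y) =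
          (v.mult : ℝ) * Real.posLog (v y) := by
        intro v
        rw [hpl _ (apply_nonneg v y)]
        rfl
      simp only [e3]
      refine Finset.sum_subset (Finset.subset_univ _) fun v _ hv => ?_
      have h1 : (Sum.inl v : Pl k) ∉ S := fun h2 => hv (Finset.mem_toLeft.2 h2)
      have h2 : v y = 1 := hy _ h1
      rw [h2, Real.posLog_one, mul_zero]
    rw [e1, e2, ← Finset.toLeft_disjSum_toRight (u := S), Finset.sum_disjSum]
    simp only [Finset.toLeft_disjSum, Finset.toRight_disjSum]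
    refine le_of_eq ?_
    congr 1
    refine Finset.sum_congr rfl fun v _ => ?_
    exact (one_mul _).symm
  have h1 := key x h hx
  have h2 := key x⁻¹ (fun v hv => by rw [map_inv₀, h v hv, inv_one]) (inv_ne_zero hx)
  rw [logHeight₁_inv] at h2
  have h3 : ∑ v ∈ S, wt v * |Real.log (av v x)| =
      ∑ v ∈ S, wt v * lp (av v x) + ∑ v ∈ S, wt v * lp (av v x⁻¹) := by
    rw [← Finset.sum_add_distrib]
    refine Finset.sum_congr rfl fun v _ => ?_
    rw [map_inv₀, ← lp_add ((av v).pos_iff.2 hx)]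
    ring
  have h4 := (ex_facts S hx).2.2.1
  refine le_antisymm ?_ h4
  unfold ex
  rw [h3]
  linarith

end

end Pool.Agent.N63.MT
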